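import Mathlib

set_option autoImplicit false

namespace Pool.Agent.Helper2.TB

/-- mean value upper bound. -/
theorem mv_le {f f' : ℝ → ℝ} {C a b : ℝ} (hab : a ≤ b)
    (hf : ∀ t ∈ Set.Icc a b, HasDerivAt f (f' t) t)
    (hC : ∀ t ∈ Set.Icc a b, f' t ≤ C) : f b ≤ f a + C * (b - a) := by
  rcases eq_or_lt_of_le hab with h | h
  · subst h; simp
  · obtain ⟨c, hc, hc'⟩ := exists_hasDerivAt_eq_slope f f' h
      (fun t ht => (hf t ht).continuousAt.continuousWithinAt)
      (fun t ht => hf t ⟨ht.1.le, ht.2.le⟩)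
    have h1 := hC c ⟨hc.1.le, hc.2.le⟩
    rw [hc', div_le_iff₀ (by linarith)] at h1
    linarith

/-- mean value lower bound. -/
theorem mv_ge {f f' : ℝ → ℝ} {C a b : ℝ} (hab : a ≤ b)
    (hf : ∀ t ∈ Set.Icc a b, HasDerivAt f (f' t) t)
    (hC : ∀ t ∈ Set.Icc a b, C ≤ f' t) : f a + C * (b - a) ≤ f b := by
  rcases eq_or_lt_of_le hab with h | h
  · subst h; simp
  · obtain ⟨c, hc, hc'⟩ := exists_hasDerivAt_eq_slope f f' h
      (fun t ht => (hf t ht).continuousAt.continuousWithinAt)
      (fun t ht => hf t ⟨ht.1.le, ht.2.le⟩)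
    have h1 := hC c ⟨hc.1.le, hc.2.le⟩
    rw [hc', le_div_iff₀ (by linarith)] at h1
    linarith

/-- A positive function on the line cannot have everywhere negative second derivative. -/
theorem no_pos_concave {f f1 f2 : ℝ → ℝ} (h1 : ∀ t, HasDerivAt f (f1 t) t)
    (h2 : ∀ t, HasDerivAt f1 (f2 t) t) (hpos : ∀ t, 0 < f t) (hneg : ∀ t, f2 t < 0) : False := by
  have hanti : ∀ a b, a ≤ b → f1 b ≤ f1 a := by
    intro a b hab
    have := mv_le (C := 0) hab (fun t _ => h2 t) (fun t _ => (hneg t).le)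
    linarith
  have hstrict : f1 1 < f1 0 := by
    obtain ⟨c, hc, hc'⟩ := exists_hasDerivAt_eq_slope f1 f2 (zero_lt_one)
      (fun t ht => (h2 t).continuousAt.continuousWithinAt)
      (fun t ht => h2 t)
    have := hneg c
    rw [hc'] at this
    simp at this
    linarith
  -- forward
  have fwd : ∀ a, 0 ≤ f1 a := by
    intro a
    by_contra hlt
    push Not at hlt
    set T := a + f a / (- f1 a) + 1 with hT
    have hpa : 0 < f a / (- f1 a) := div_pos (hpos a) (by linarith)
    have hne : f1 a ≠ 0 := by intro h0; linarith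
    have hTa : a ≤ T := by rw [hT]; linarith
    have := mv_le (C := f1 a) hTa (fun t _ => h1 t) (fun t ht => hanti a t ht.1)
    have h3 := hpos T
    have h4 : f a + f1 a * (T - a) = f1 a := by
      rw [hT]; field_simp; ring
    linarith
  have bwd : ∀ a, f1 a ≤ 0 := by
    intro a
    by_contra hlt
    push Not at hlt
    set T := a - f a / (f1 a) - 1 with hT
    have hpa : 0 < f a / (f1 a) := div_pos (hpos a) (by linarith)
    have hne : f1 a ≠ 0 := by intro h0; linarith
    have hTa : T ≤ a := by rw [hT]; linarith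
    have := mv_ge (C := f1 a) hTa (fun t _ => h1 t) (fun t ht => hanti t a ht.2)
    have h3 := hpos T
    have h4 : f1 a * (a - T) = f a + f1 a := by
      rw [hT]; field_simp; ring
    linarith
  have e0 := le_antisymm (bwd 0) (fwd 0)
  have e1 := le_antisymm (bwd 1) (fwd 1)
  linarith

/-- A nonnegative function on the line with zero second derivative has zero derivative. -/
theorem affine_nonneg {f f1 : ℝ → ℝ} (h1 : ∀ t, HasDerivAt f (f1 t) t)
    (h2 : ∀ t, HasDerivAt f1 0 t) (hpos : ∀ t, 0 ≤ f t) : ∀ t, f1 t = 0 := by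
  have hconst : ∀ a b, f1 a = f1 b := by
    intro a b
    exact is_const_of_deriv_eq_zero (fun t => (h2 t).differentiableAt)
      (fun t => (h2 t).deriv) a b
  intro a
  rcases lt_trichotomy (f1 a) 0 with h | h | h
  · exfalso
    set T := a + f a / (- f1 a) + 1 with hT
    have hpa : 0 ≤ f a / (- f1 a) := div_nonneg (hpos a) (by linarith)
    have hne : f1 a ≠ 0 := by intro h0; linarith
    have hTa : a ≤ T := by rw [hT]; linarith
    have := mv_le (C := f1 a) hTa (fun t _ => h1 t) (fun t ht => (hconst t a).le)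
    have h3 := hpos T
    have h4 : f a + f1 a * (T - a) = f1 a := by
      rw [hT]; field_simp; ring
    linarith
  · exact h
  · exfalso
    set T := a - f a / (f1 a) - 1 with hT
    have hpa : 0 ≤ f a / (f1 a) := div_nonneg (hpos a) (by linarith)
    have hne : f1 a ≠ 0 := by intro h0; linarith
    have hTa : T ≤ a := by rw [hT]; linarith
    have := mv_ge (C := f1 a) hTa (fun t _ => h1 t) (fun t ht => (hconst a t).le)
    have h3 := hpos T
    have h4 : f1 a * (a - T) = f a + f1 a := by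
      rw [hT]; field_simp; ring
    linarith

/-- Sturm type lemma on a half line, positive version. -/
theorem no_pos_half {f f1 f2 : ℝ → ℝ} {a c : ℝ} (hc : 0 < c)
    (h1 : ∀ t, HasDerivAt f (f1 t) t)
    (h2 : ∀ t, HasDerivAt f1 (f2 t) t) (hpos : ∀ t, a ≤ t → 0 < f t)
    (hneg : ∀ t, a ≤ t → f2 t ≤ - c * f t) : False := by
  have hanti : ∀ s t, a ≤ s → s ≤ t → f1 t ≤ f1 s := by
    intro s t has hst
    have := mv_le (C := 0) hst (fun t _ => h2 t) (fun t ht => by
      have h3 := hneg t (has.trans ht.1)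
      have h4 := hpos t (has.trans ht.1)
      nlinarith)
    linarith
  have fwd : ∀ s, a ≤ s → 0 ≤ f1 s := by
    intro s has
    by_contra hlt
    push Not at hlt
    set T := s + f s / (- f1 s) + 1 with hT
    have hpa : 0 < f s / (- f1 s) := div_pos (hpos s has) (by linarith)
    have hne : f1 s ≠ 0 := by intro h0; linarith
    have hTa : s ≤ T := by rw [hT]; linarith
    have := mv_le (C := f1 s) hTa (fun t _ => h1 t) (fun t ht => hanti s t has ht.1)
    have h3 := hpos T (has.trans hTa)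
    have h4 : f s + f1 s * (T - s) = f1 s := by
      rw [hT]; field_simp; ring
    linarith
  have hmono : ∀ t, a ≤ t → f a ≤ f t := by
    intro t hat
    have := mv_ge (C := 0) hat (fun t _ => h1 t) (fun t ht => fwd t ht.1)
    linarith
  have hfa := hpos a le_rfl
  set T := a + f1 a / (c * f a) + 1 with hT
  have hpa : 0 ≤ f1 a / (c * f a) := div_nonneg (fwd a le_rfl) (by positivity)
  have hTa : a ≤ T := by rw [hT]; linarith
  have := mv_le (C := - (c * f a)) hTa (fun t _ => h2 t) (fun t ht => by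
    have h3 := hneg t ht.1
    have h4 := hmono t ht.1
    nlinarith)
  have h3 := fwd T hTa
  have h4 : f1 a + -(c * f a) * (T - a) = - (c * f a) := by
    rw [hT]; field_simp; ring
  have h5 : 0 < c * f a := by positivity
  linarith

/-- If `S'' = - g S` with `g ≥ c > 0` then zeros exist to the right. -/
theorem zero_right {S Sp g : ℝ → ℝ} {c : ℝ} (hc : 0 < c) (hg : ∀ t, c ≤ g t)
    (h1 : ∀ t, HasDerivAt S (Sp t) t) (h2 : ∀ t, HasDerivAt Sp (- g t * S t) t) (a : ℝ) :
    ∃ t, a ≤ t ∧ S t = 0 := by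
  by_contra hcon
  push Not at hcon
  have hcont : Continuous S := continuous_iff_continuousAt.2 fun t => (h1 t).continuousAt
  have hsign : (∀ t, a ≤ t → 0 < S t) ∨ (∀ t, a ≤ t → S t < 0) := by
    rcases lt_or_gt_of_ne (hcon a le_rfl) with h | h
    · right
      intro t hat
      by_contra hge
      push Not at hge
      obtain ⟨s, hs, hs'⟩ := intermediate_value_Icc hat hcont.continuousOn ⟨h.le, hge⟩
      exact hcon s hs.1 hs'
    · left
      intro t hat
      by_contra hge
      push Not at hge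
      obtain ⟨s, hs, hs'⟩ := intermediate_value_Icc' hat hcont.continuousOn ⟨hge, h.le⟩
      exact hcon s hs.1 hs'
  rcases hsign with h | h
  · refine no_pos_half (a := a) hc h1 h2 h ?_
    intro t hat
    have := h t hat
    have := hg t
    nlinarith
  · refine no_pos_half (f := fun t => - S t) (f1 := fun t => - Sp t)
      (f2 := fun t => - (- g t * S t)) (a := a) hc (fun t => (h1 t).neg) (fun t => (h2 t).neg)
      (fun t hat => by have := h t hat; linarith) ?_
    intro t hat
    have := h t hat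
    have := hg t
    nlinarith

theorem zero_left {S Sp g : ℝ → ℝ} {c : ℝ} (hc : 0 < c) (hg : ∀ t, c ≤ g t)
    (h1 : ∀ t, HasDerivAt S (Sp t) t) (h2 : ∀ t, HasDerivAt Sp (- g t * S t) t) (a : ℝ) :
    ∃ t, t ≤ a ∧ S t = 0 := by
  have key := zero_right (S := fun t => S (-t)) (Sp := fun t => - Sp (-t)) (g := fun t => g (-t))
    hc (fun t => hg _) (fun t => by
      have := (h1 (-t)).comp t (hasDerivAt_neg t)
      simpa [Function.comp_def] using this) (fun t => by
      have := ((h2 (-t)).comp t (hasDerivAt_neg t)).fun_neg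
      simpa [Function.comp_def] using this) (-a)
  obtain ⟨t, ht, ht'⟩ := key
  exact ⟨-t, by linarith, ht'⟩

/-- Nearest zeros around a point where a continuous function does not vanish. -/
theorem zeros_around {S : ℝ → ℝ} (hS : Continuous S) {a : ℝ} (ha : S a ≠ 0)
    (hr : ∃ t, a ≤ t ∧ S t = 0) (hl : ∃ t, t ≤ a ∧ S t = 0) :
    ∃ t0 t1, t0 < a ∧ a < t1 ∧ S t0 = 0 ∧ S t1 = 0 ∧ ∀ t, t0 < t → t < t1 → S t ≠ 0 := by
  set Z1 : Set ℝ := {t | a ≤ t ∧ S t = 0} with hZ1
  set Z0 : Set ℝ := {t | t ≤ a ∧ S t = 0} with hZ0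
  have c1 : IsClosed Z1 := by
    have : Z1 = Set.Ici a ∩ S ⁻¹' {0} := by ext t; simp [hZ1]
    rw [this]; exact isClosed_Ici.inter (isClosed_singleton.preimage hS)
  have c0 : IsClosed Z0 := by
    have : Z0 = Set.Iic a ∩ S ⁻¹' {0} := by ext t; simp [hZ0]
    rw [this]; exact isClosed_Iic.inter (isClosed_singleton.preimage hS)
  have b1 : BddBelow Z1 := ⟨a, fun t ht => ht.1⟩
  have b0 : BddAbove Z0 := ⟨a, fun t ht => ht.1⟩
  have m1 : sInf Z1 ∈ Z1 := c1.csInf_mem hr b1
  have m0 : sSup Z0 ∈ Z0 := c0.csSup_mem hl b0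
  refine ⟨sSup Z0, sInf Z1, ?_, ?_, m0.2, m1.2, ?_⟩
  · exact lt_of_le_of_ne m0.1 (fun h => ha (h ▸ m0.2))
  · exact lt_of_le_of_ne m1.1 (fun h => ha (h ▸ m1.2))
  · intro t h0 h1 hz
    rcases le_total a t with h | h
    · exact absurd (csInf_le b1 ⟨h, hz⟩) (not_le.2 h1)
    · exact absurd (le_csSup b0 ⟨h, hz⟩) (not_le.2 h0)

/-- A continuous function on an open interval without zeros, positive at one point. -/
theorem pos_on_Ioo {f : ℝ → ℝ} (hf : Continuous f) {t0 t1 a : ℝ} (h0 : t0 < a) (h1 : a < t1)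
    (hne : ∀ t, t0 < t → t < t1 → f t ≠ 0) (ha : 0 < f a) : ∀ t, t0 < t → t < t1 → 0 < f t := by
  intro t ht0 ht1
  by_contra hneg
  push Not at hneg
  rcases le_total a t with h | h
  · obtain ⟨s, hs, hs'⟩ := intermediate_value_Icc' h hf.continuousOn ⟨hneg, ha.le⟩
    exact hne s (lt_of_lt_of_le h0 hs.1) (lt_of_le_of_lt hs.2 ht1) hs'
  · obtain ⟨s, hs, hs'⟩ := intermediate_value_Icc h hf.continuousOn ⟨hneg, ha.le⟩
    exact hne s (lt_of_lt_of_le ht0 hs.1) (lt_of_le_of_lt hs.2 h1) hs'

end Pool.Agent.Helper2.TB
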