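import Pool.Agent.Helper2.TB.Return

set_option autoImplicit false

open ComplexConjugate Filter Topology

namespace Pool.Agent.Helper2.TB

theorem lip_of_deriv {f f' : ℝ → ℂ} {C : ℝ} (h : ∀ t, HasDerivAt f (f' t) t)
    (hC : ∀ t, ‖f' t‖ ≤ C) (s t : ℝ) : ‖f s - f t‖ ≤ C * |s - t| := by
  have := Convex.norm_image_sub_le_of_norm_hasDerivWithin_le (f := f) (f' := f') (s := Set.univ)
    (x := t) (y := s) (C := C) (fun x _ => (h x).hasDerivWithinAt) (fun x _ => hC x)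
    convex_univ trivial trivial
  simpa [Real.norm_eq_abs] using this

theorem taylor_bound {f f' : ℝ → ℂ} {L : ℝ} (h1 : ∀ t, HasDerivAt f (f' t) t)
    (h2 : ∀ s t, ‖f' s - f' t‖ ≤ L * |s - t|) (hL : 0 ≤ L) (s t : ℝ) :
    ‖f s - f t - (s - t) • f' t‖ ≤ L * |s - t| ^ 2 := by
  have key := Convex.norm_image_sub_le_of_norm_hasDerivWithin_le
    (f := fun x => f x - x • f' t) (f' := fun x => f' x - f' t) (s := Set.uIcc t s)
    (x := t) (y := s) (C := L * |s - t|) (fun x _ => by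
      have := ((h1 x).fun_sub ((hasDerivAt_id x).smul_const (f' t))).hasDerivWithinAt
        (s := Set.uIcc t s)
      simpa using this) (fun x hx => by
      refine (h2 x t).trans ?_
      apply mul_le_mul_of_nonneg_left _ hL
      exact Set.abs_sub_left_of_mem_uIcc hx)
    (convex_uIcc t s) Set.left_mem_uIcc Set.right_mem_uIcc
  have e : f s - f t - (s - t) • f' t = (f s - s • f' t) - (f t - t • f' t) := by
    rw [sub_smul]; ring
  rw [e]
  refine key.trans ?_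
  rw [Real.norm_eq_abs]
  apply le_of_eq; ring

theorem hasDerivAt_of_lim {F F' : ℕ → ℝ → ℂ} {f f' : ℝ → ℂ} {L : ℝ} (hL : 0 ≤ L)
    {U : Filter ℕ} [NeBot U]
    (h1 : ∀ n t, HasDerivAt (F n) (F' n t) t)
    (h2 : ∀ n s t, ‖F' n s - F' n t‖ ≤ L * |s - t|)
    (l1 : ∀ t, Tendsto (fun n => F n t) U (𝓝 (f t)))
    (l2 : ∀ t, Tendsto (fun n => F' n t) U (𝓝 (f' t))) (t : ℝ) : HasDerivAt f (f' t) t := by
  have hb : ∀ s, ‖f s - f t - (s - t) • f' t‖ ≤ L * |s - t| ^ 2 := by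
    intro s
    have hl : Tendsto (fun n => ‖F n s - F n t - (s - t) • F' n t‖) U
        (𝓝 ‖f s - f t - (s - t) • f' t‖) :=
      (((l1 s).sub (l1 t)).sub ((l2 t).const_smul _)).norm
    exact le_of_tendsto hl (Eventually.of_forall fun n => taylor_bound (h1 n) (h2 n) hL s t)
  rw [hasDerivAt_iff_isLittleO]
  have hO : (fun s => f s - f t - (s - t) • f' t) =O[𝓝 t] (fun s => ‖s - t‖ ^ 2) := by
    apply Asymptotics.IsBigO.of_bound L
    apply Eventually.of_forall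
    intro s
    have := hb s
    rw [Real.norm_eq_abs (‖s - t‖ ^ 2), abs_of_nonneg (by positivity), Real.norm_eq_abs]
    exact this
  exact hO.trans_isLittleO (Asymptotics.isLittleO_pow_sub_sub t (by norm_num))

theorem G_norm {a : ℂ} (ha : a ≠ 0) : ‖G a‖ = (‖a‖ ^ 2)⁻¹ := by
  have : ‖a‖ ≠ 0 := (norm_pos_iff.2 ha).ne'
  unfold G
  rw [norm_smul, Real.norm_of_nonneg (by positivity)]
  field_simp

theorem G_lip {a b : ℂ} {δ : ℝ} (hδ : 0 < δ) (ha : δ ≤ ‖a‖) (hb : δ ≤ ‖b‖) :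
    ‖G a - G b‖ ≤ 4 / δ ^ 3 * ‖a - b‖ := by
  have ha0 : 0 < ‖a‖ := lt_of_lt_of_le hδ ha
  have hb0 : 0 < ‖b‖ := lt_of_lt_of_le hδ hb
  have e : G a - G b = (‖a‖ ^ 3)⁻¹ • (a - b) + ((‖a‖ ^ 3)⁻¹ - (‖b‖ ^ 3)⁻¹) • b := by
    unfold G; rw [smul_sub, sub_smul]; ring
  rw [e]
  refine (norm_add_le _ _).trans ?_
  rw [norm_smul, norm_smul, Real.norm_of_nonneg (by positivity : (0:ℝ) ≤ (‖a‖ ^ 3)⁻¹),
    Real.norm_eq_abs]
  have h1 : (‖a‖ ^ 3)⁻¹ ≤ 1 / δ ^ 3 := by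
    rw [one_div]; exact inv_anti₀ (by positivity) (pow_le_pow_left₀ hδ.le ha 3)
  have h2 : |(‖a‖ ^ 3)⁻¹ - (‖b‖ ^ 3)⁻¹| * ‖b‖
      = |‖b‖ - ‖a‖| * (1 / (‖a‖ * ‖b‖ ^ 2) + 1 / (‖a‖ ^ 2 * ‖b‖) + 1 / ‖a‖ ^ 3) := by
    have e1 : (‖a‖ ^ 3)⁻¹ - (‖b‖ ^ 3)⁻¹
        = (‖b‖ - ‖a‖) * ((‖a‖ ^ 2 + ‖a‖ * ‖b‖ + ‖b‖ ^ 2) / (‖a‖ ^ 3 * ‖b‖ ^ 3)) := by
      field_simp; ring
    rw [e1, abs_mul, abs_of_nonneg (by positivity :
      0 ≤ (‖a‖ ^ 2 + ‖a‖ * ‖b‖ + ‖b‖ ^ 2) / (‖a‖ ^ 3 * ‖b‖ ^ 3))]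
    field_simp
  have h3 : |‖b‖ - ‖a‖| ≤ ‖a - b‖ := by
    rw [abs_sub_comm]; exact abs_norm_sub_norm_le a b
  have h4 : 1 / (‖a‖ * ‖b‖ ^ 2) + 1 / (‖a‖ ^ 2 * ‖b‖) + 1 / ‖a‖ ^ 3 ≤ 3 / δ ^ 3 := by
    have i1 : 1 / (‖a‖ * ‖b‖ ^ 2) ≤ 1 / δ ^ 3 := by
      apply one_div_le_one_div_of_le (by positivity)
      calc δ ^ 3 = δ * δ ^ 2 := by ring
        _ ≤ ‖a‖ * ‖b‖ ^ 2 := mul_le_mul ha (pow_le_pow_left₀ hδ.le hb 2) (by positivity) ha0.le
    have i2 : 1 / (‖a‖ ^ 2 * ‖b‖) ≤ 1 / δ ^ 3 := by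
      apply one_div_le_one_div_of_le (by positivity)
      calc δ ^ 3 = δ ^ 2 * δ := by ring
        _ ≤ ‖a‖ ^ 2 * ‖b‖ := mul_le_mul (pow_le_pow_left₀ hδ.le ha 2) hb hδ.le (by positivity)
    have i3 : 1 / ‖a‖ ^ 3 ≤ 1 / δ ^ 3 := by
      apply one_div_le_one_div_of_le (by positivity) (pow_le_pow_left₀ hδ.le ha 3)
    have i4 : 3 / δ ^ 3 = 1 / δ ^ 3 + 1 / δ ^ 3 + 1 / δ ^ 3 := by ring
    linarith
  rw [h2]
  have h5 : (‖a‖ ^ 3)⁻¹ * ‖a - b‖ ≤ 1 / δ ^ 3 * ‖a - b‖ :=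
    mul_le_mul_of_nonneg_right h1 (norm_nonneg _)
  have h6 : |‖b‖ - ‖a‖| * (1 / (‖a‖ * ‖b‖ ^ 2) + 1 / (‖a‖ ^ 2 * ‖b‖) + 1 / ‖a‖ ^ 3)
      ≤ ‖a - b‖ * (3 / δ ^ 3) := mul_le_mul h3 h4 (by positivity) (norm_nonneg _)
  have h7 : 4 / δ ^ 3 * ‖a - b‖ = 1 / δ ^ 3 * ‖a - b‖ + ‖a - b‖ * (3 / δ ^ 3) := by ring
  rw [h7]
  exact add_le_add h5 h6

theorem G_continuousAt {a : ℂ} (ha : a ≠ 0) : ContinuousAt G a := by
  have hn : ‖a‖ ^ 3 ≠ 0 := pow_ne_zero 3 (norm_ne_zero_iff.2 ha)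
  unfold G
  exact ((continuous_norm.continuousAt.pow 3).inv₀ hn).smul continuousAt_id

theorem limit_contra {m k u uH D : ℝ} (X Y Z P Q R : ℕ → ℝ → ℂ)
    (h : ∀ n, Sol m (X n) (Y n) (Z n) (P n) (Q n) (R n))
    (hK : ∀ n t, ‖P n t‖ ^ 2 + ‖Q n t‖ ^ 2 + ‖R n t‖ ^ 2 ≤ k)
    (hV : ∀ n t, 1 / ‖Z n t - Y n t‖ + 1 / ‖Z n t - X n t‖ + 1 / ‖Y n t - X n t‖ ≤ uH)
    (hX0 : ∀ n, ‖X n 0‖ ≤ D) (hY0 : ∀ n, ‖Y n 0‖ ≤ D) (hZ0 : ∀ n, ‖Z n 0‖ ≤ D)
    (limV : ∀ t, Tendsto (fun n => 1 / ‖Z n t - Y n t‖ + 1 / ‖Z n t - X n t‖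
      + 1 / ‖Y n t - X n t‖) atTop (𝓝 u))
    (limK : ∀ t, Tendsto (fun n => ‖P n t‖ ^ 2 + ‖Q n t‖ ^ 2 + ‖R n t‖ ^ 2) atTop
      (𝓝 (m * u))) : False := by
  have hm := (h 0).hm
  have dYX : ∀ n t, 0 < ‖Y n t - X n t‖ := fun n t =>
    norm_pos_iff.2 (sub_ne_zero.2 ((h n).nxy t).symm)
  have dZX : ∀ n t, 0 < ‖Z n t - X n t‖ := fun n t =>
    norm_pos_iff.2 (sub_ne_zero.2 ((h n).nxz t).symm)
  have dZY : ∀ n t, 0 < ‖Z n t - Y n t‖ := fun n t =>
    norm_pos_iff.2 (sub_ne_zero.2 ((h n).nyz t).symm)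
  have huH : 0 < uH := by
    have h1 := hV 0 0
    have := dYX 0 0; have := dZX 0 0; have := dZY 0 0
    have : 0 < 1 / ‖Z 0 0 - Y 0 0‖ + 1 / ‖Z 0 0 - X 0 0‖ + 1 / ‖Y 0 0 - X 0 0‖ := by positivity
    linarith
  set δ : ℝ := 1 / uH with hδ
  have hδ0 : 0 < δ := by rw [hδ]; positivity
  have inv_le : ∀ d : ℝ, 0 < d → 1 / d ≤ uH → δ ≤ d := by
    intro d hd h1
    rw [hδ, div_le_iff₀ huH]
    rw [div_le_iff₀ hd] at h1
    linarith
  have bYX : ∀ n t, δ ≤ ‖Y n t - X n t‖ := fun n t => by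
    apply inv_le _ (dYX n t)
    have h1 := hV n t
    have := dZX n t; have := dZY n t
    have h2 : 0 < 1 / ‖Z n t - Y n t‖ := by positivity
    have h3 : 0 < 1 / ‖Z n t - X n t‖ := by positivity
    linarith
  have bZX : ∀ n t, δ ≤ ‖Z n t - X n t‖ := fun n t => by
    apply inv_le _ (dZX n t)
    have h1 := hV n t
    have := dYX n t; have := dZY n t
    have h2 : 0 < 1 / ‖Z n t - Y n t‖ := by positivity
    have h3 : 0 < 1 / ‖Y n t - X n t‖ := by positivity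
    linarith
  have bZY : ∀ n t, δ ≤ ‖Z n t - Y n t‖ := fun n t => by
    apply inv_le _ (dZY n t)
    have h1 := hV n t
    have := dYX n t; have := dZX n t
    have h2 : 0 < 1 / ‖Z n t - X n t‖ := by positivity
    have h3 : 0 < 1 / ‖Y n t - X n t‖ := by positivity
    linarith
  set v : ℝ := k + 1 with hv
  have vP : ∀ n t, ‖P n t‖ ≤ v := fun n t => by
    have := hK n t
    nlinarith [sq_nonneg (‖P n t‖ - 1), sq_nonneg ‖Q n t‖, sq_nonneg ‖R n t‖]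
  have vQ : ∀ n t, ‖Q n t‖ ≤ v := fun n t => by
    have := hK n t
    nlinarith [sq_nonneg (‖Q n t‖ - 1), sq_nonneg ‖P n t‖, sq_nonneg ‖R n t‖]
  have vR : ∀ n t, ‖R n t‖ ≤ v := fun n t => by
    have := hK n t
    nlinarith [sq_nonneg (‖R n t‖ - 1), sq_nonneg ‖P n t‖, sq_nonneg ‖Q n t‖]
  have hv0 : 0 ≤ v := (norm_nonneg _).trans (vP 0 0)
  -- acceleration function
  have accBound : ∀ a b : ℂ, δ ≤ ‖a‖ → δ ≤ ‖b‖ → ‖m • (G a + G b)‖ ≤ m * (2 / δ ^ 2) := by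
    intro a b ha hb
    rw [norm_smul, Real.norm_of_nonneg hm.le]
    apply mul_le_mul_of_nonneg_left _ hm.le
    refine (norm_add_le _ _).trans ?_
    rw [G_norm (norm_pos_iff.1 (lt_of_lt_of_le hδ0 ha)),
      G_norm (norm_pos_iff.1 (lt_of_lt_of_le hδ0 hb))]
    have i1 : (‖a‖ ^ 2)⁻¹ ≤ 1 / δ ^ 2 := by
      rw [one_div]; exact inv_anti₀ (by positivity) (pow_le_pow_left₀ hδ0.le ha 2)
    have i2 : (‖b‖ ^ 2)⁻¹ ≤ 1 / δ ^ 2 := by
      rw [one_div]; exact inv_anti₀ (by positivity) (pow_le_pow_left₀ hδ0.le hb 2)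
    have i3 : 2 / δ ^ 2 = 1 / δ ^ 2 + 1 / δ ^ 2 := by ring
    linarith
  have accLip : ∀ (f g e f' g' e' : ℝ → ℂ), (∀ t, HasDerivAt f (f' t) t) →
      (∀ t, HasDerivAt g (g' t) t) → (∀ t, HasDerivAt e (e' t) t) →
      (∀ t, ‖f' t‖ ≤ v) → (∀ t, ‖g' t‖ ≤ v) → (∀ t, ‖e' t‖ ≤ v) →
      (∀ t, δ ≤ ‖g t - f t‖) → (∀ t, δ ≤ ‖e t - f t‖) → ∀ s t,
      ‖m • (G (g s - f s) + G (e s - f s)) - m • (G (g t - f t) + G (e t - f t))‖
        ≤ m * (16 * v / δ ^ 3) * |s - t| := by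
    intro f g e f' g' e' hf hg he bf bg be b1 b2 s t
    rw [← smul_sub, norm_smul, Real.norm_of_nonneg hm.le, mul_assoc]
    apply mul_le_mul_of_nonneg_left _ hm.le
    have e1 : G (g s - f s) + G (e s - f s) - (G (g t - f t) + G (e t - f t))
      = (G (g s - f s) - G (g t - f t)) + (G (e s - f s) - G (e t - f t)) := by ring
    rw [e1]
    refine (norm_add_le _ _).trans ?_
    have i1 := G_lip hδ0 (b1 s) (b1 t)
    have i2 := G_lip hδ0 (b2 s) (b2 t)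
    have lf := lip_of_deriv hf bf s t
    have lg := lip_of_deriv hg bg s t
    have le := lip_of_deriv he be s t
    have j1 : ‖g s - f s - (g t - f t)‖ ≤ 2 * v * |s - t| := by
      have e2 : g s - f s - (g t - f t) = (g s - g t) - (f s - f t) := by ring
      rw [e2]
      refine (norm_sub_le _ _).trans ?_
      linarith
    have j2 : ‖e s - f s - (e t - f t)‖ ≤ 2 * v * |s - t| := by
      have e2 : e s - f s - (e t - f t) = (e s - e t) - (f s - f t) := by ring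
      rw [e2]
      refine (norm_sub_le _ _).trans ?_
      linarith
    have k1 : 4 / δ ^ 3 * ‖g s - f s - (g t - f t)‖ ≤ 4 / δ ^ 3 * (2 * v * |s - t|) :=
      mul_le_mul_of_nonneg_left j1 (by positivity)
    have k2 : 4 / δ ^ 3 * ‖e s - f s - (e t - f t)‖ ≤ 4 / δ ^ 3 * (2 * v * |s - t|) :=
      mul_le_mul_of_nonneg_left j2 (by positivity)
    have k3 : 16 * v / δ ^ 3 * |s - t| = 4 / δ ^ 3 * (2 * v * |s - t|)
      + 4 / δ ^ 3 * (2 * v * |s - t|) := by ring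
    rw [k3]
    linarith
  -- ultrafilter limits
  set U : Ultrafilter ℕ := hyperfilter ℕ with hU
  have hUle : (U : Filter ℕ) ≤ atTop := Nat.hyperfilter_le_atTop
  have exlim : ∀ (F : ℕ → ℂ) (C : ℝ), (∀ n, ‖F n‖ ≤ C) → ∃ l, Tendsto F U (𝓝 l) := by
    intro F C hF
    have hc : IsCompact (Metric.closedBall (0:ℂ) C) := isCompact_closedBall _ _
    have hmem : ((U.map F : Ultrafilter ℂ) : Filter ℂ) ≤ 𝓟 (Metric.closedBall (0:ℂ) C) := by
      rw [le_principal_iff, Ultrafilter.coe_map, mem_map]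
      apply Filter.univ_mem'
      intro n
      simp [hF n]
    obtain ⟨l, _, hl⟩ := hc.ultrafilter_le_nhds _ hmem
    exact ⟨l, hl⟩
  have posB : ∀ (F F' : ℝ → ℂ), (∀ t, HasDerivAt F (F' t) t) → (∀ t, ‖F' t‖ ≤ v) → ‖F 0‖ ≤ D →
      ∀ t, ‖F t‖ ≤ D + v * |t| := by
    intro F F' h1 h2 h3 t
    have h4 := lip_of_deriv h1 h2 t 0
    have h5 : ‖F t‖ ≤ ‖F t - F 0‖ + ‖F 0‖ := by
      have := norm_add_le (F t - F 0) (F 0)
      simpa using this
    rw [sub_zero] at h4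
    linarith
  have lx : ∀ t, ∃ l, Tendsto (fun n => X n t) U (𝓝 l) := fun t =>
    exlim _ (D + v * |t|) (fun n => posB _ _ (h n).hx (vP n) (hX0 n) t)
  have ly : ∀ t, ∃ l, Tendsto (fun n => Y n t) U (𝓝 l) := fun t =>
    exlim _ (D + v * |t|) (fun n => posB _ _ (h n).hy (vQ n) (hY0 n) t)
  have lz : ∀ t, ∃ l, Tendsto (fun n => Z n t) U (𝓝 l) := fun t =>
    exlim _ (D + v * |t|) (fun n => posB _ _ (h n).hz (vR n) (hZ0 n) t)
  have lp : ∀ t, ∃ l, Tendsto (fun n => P n t) U (𝓝 l) := fun t => exlim _ v (fun n => vP n t)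
  have lq : ∀ t, ∃ l, Tendsto (fun n => Q n t) U (𝓝 l) := fun t => exlim _ v (fun n => vQ n t)
  have lr : ∀ t, ∃ l, Tendsto (fun n => R n t) U (𝓝 l) := fun t => exlim _ v (fun n => vR n t)
  choose x hx using lx
  choose y hy using ly
  choose z hz using lz
  choose p hp using lp
  choose q hq using lq
  choose r hr using lr
  -- distance bounds in the limit
  have byx : ∀ t, δ ≤ ‖y t - x t‖ := fun t =>
    ge_of_tendsto ((hy t).sub (hx t)).norm (Eventually.of_forall fun n => bYX n t)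
  have bzx : ∀ t, δ ≤ ‖z t - x t‖ := fun t =>
    ge_of_tendsto ((hz t).sub (hx t)).norm (Eventually.of_forall fun n => bZX n t)
  have bzy : ∀ t, δ ≤ ‖z t - y t‖ := fun t =>
    ge_of_tendsto ((hz t).sub (hy t)).norm (Eventually.of_forall fun n => bZY n t)
  have nyx : ∀ t, y t - x t ≠ 0 := fun t => norm_pos_iff.1 (lt_of_lt_of_le hδ0 (byx t))
  have nzx : ∀ t, z t - x t ≠ 0 := fun t => norm_pos_iff.1 (lt_of_lt_of_le hδ0 (bzx t))
  have nzy : ∀ t, z t - y t ≠ 0 := fun t => norm_pos_iff.1 (lt_of_lt_of_le hδ0 (bzy t))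
  have nxy : ∀ t, x t - y t ≠ 0 := fun t => by
    intro h0; apply nyx t; rw [← neg_sub, h0, neg_zero]
  have nxz : ∀ t, x t - z t ≠ 0 := fun t => by
    intro h0; apply nzx t; rw [← neg_sub, h0, neg_zero]
  have nyz : ∀ t, y t - z t ≠ 0 := fun t => by
    intro h0; apply nzy t; rw [← neg_sub, h0, neg_zero]
  have limG : ∀ (F : ℕ → ℂ) (l : ℂ), l ≠ 0 → Tendsto F U (𝓝 l) →
      Tendsto (fun n => G (F n)) U (𝓝 (G l)) := by
    intro F l hl hF
    exact (G_continuousAt hl).tendsto.comp hF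
  have hA : 0 ≤ m * (2 / δ ^ 2) := by positivity
  have hA' : 0 ≤ m * (16 * v / δ ^ 3) := by positivity
  have hS : Sol m x y z p q r :=
    { hm := hm
      hx := hasDerivAt_of_lim hA (fun n => (h n).hx) (fun n => lip_of_deriv (h n).hp (fun t =>
        accBound _ _ (bYX n t) (bZX n t))) hx hp
      hy := hasDerivAt_of_lim hA (fun n => (h n).hy) (fun n => lip_of_deriv (h n).hq (fun t =>
        accBound _ _ (by rw [norm_sub_rev]; exact bYX n t) (bZY n t))) hy hq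
      hz := hasDerivAt_of_lim hA (fun n => (h n).hz) (fun n => lip_of_deriv (h n).hr (fun t =>
        accBound _ _ (by rw [norm_sub_rev]; exact bZX n t)
          (by rw [norm_sub_rev]; exact bZY n t))) hz hr
      hp := hasDerivAt_of_lim hA' (fun n => (h n).hp) (fun n => accLip _ _ _ _ _ _ (h n).hx
        (h n).hy (h n).hz (vP n) (vQ n) (vR n) (bYX n) (bZX n)) hp (fun t =>
          ((limG _ _ (nyx t) ((hy t).sub (hx t))).add
            (limG _ _ (nzx t) ((hz t).sub (hx t)))).const_smul m)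
      hq := hasDerivAt_of_lim hA' (fun n => (h n).hq) (fun n => accLip _ _ _ _ _ _ (h n).hy
        (h n).hx (h n).hz (vQ n) (vP n) (vR n) (fun t => by rw [norm_sub_rev]; exact bYX n t)
        (bZY n)) hq (fun t =>
          ((limG _ _ (nxy t) ((hx t).sub (hy t))).add
            (limG _ _ (nzy t) ((hz t).sub (hy t)))).const_smul m)
      hr := hasDerivAt_of_lim hA' (fun n => (h n).hr) (fun n => accLip _ _ _ _ _ _ (h n).hz
        (h n).hx (h n).hy (vR n) (vP n) (vQ n) (fun t => by rw [norm_sub_rev]; exact bZX n t)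
        (fun t => by rw [norm_sub_rev]; exact bZY n t)) hr (fun t =>
          ((limG _ _ (nxz t) ((hx t).sub (hz t))).add
            (limG _ _ (nyz t) ((hy t).sub (hz t)))).const_smul m)
      com := fun t => by
        have h1 := ((hx t).add (hy t)).add (hz t)
        have h2 : (fun n => X n t + Y n t + Z n t) = fun _ => (0:ℂ) := by
          funext n; exact (h n).com t
        rw [h2] at h1
        exact (tendsto_nhds_unique h1 tendsto_const_nhds)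
      mom := fun t => by
        have h1 := ((hp t).add (hq t)).add (hr t)
        have h2 : (fun n => P n t + Q n t + R n t) = fun _ => (0:ℂ) := by
          funext n; exact (h n).mom t
        rw [h2] at h1
        exact (tendsto_nhds_unique h1 tendsto_const_nhds)
      nxy := fun t => sub_ne_zero.1 (nxy t)
      nxz := fun t => sub_ne_zero.1 (nxz t)
      nyz := fun t => sub_ne_zero.1 (nyz t)
      ang := fun t => by
        have lcr : ∀ (F H : ℕ → ℂ) (a b : ℂ), Tendsto F U (𝓝 a) → Tendsto H U (𝓝 b) →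
            Tendsto (fun n => cr (F n) (H n)) U (𝓝 (cr a b)) := by
          intro F H a b hF hH
          have hFr := (Complex.continuous_re.tendsto a).comp hF
          have hFi := (Complex.continuous_im.tendsto a).comp hF
          have hHr := (Complex.continuous_re.tendsto b).comp hH
          have hHi := (Complex.continuous_im.tendsto b).comp hH
          exact (hFr.mul hHi).sub (hFi.mul hHr)
        have h1 := ((lcr _ _ _ _ (hx t) (hp t)).add (lcr _ _ _ _ (hy t) (hq t))).add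
          (lcr _ _ _ _ (hz t) (hr t))
        have h2 : (fun n => cr (X n t) (P n t) + cr (Y n t) (Q n t) + cr (Z n t) (R n t))
            = fun _ => (0:ℝ) := by
          funext n; exact (h n).ang t
        rw [h2] at h1
        exact (tendsto_nhds_unique h1 tendsto_const_nhds) }
  refine hS.contra (u := u) ?_ ?_
  · intro t
    have h1 := (limV t).mono_left hUle
    have d1 := ((hz t).sub (hy t)).norm
    have d2 := ((hz t).sub (hx t)).norm
    have d3 := ((hy t).sub (hx t)).norm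
    have h2 := (((tendsto_const_nhds (x := (1:ℝ))).div d1 (norm_ne_zero_iff.2 (nzy t))).add
      ((tendsto_const_nhds (x := (1:ℝ))).div d2 (norm_ne_zero_iff.2 (nzx t)))).add
      ((tendsto_const_nhds (x := (1:ℝ))).div d3 (norm_ne_zero_iff.2 (nyx t)))
    exact (tendsto_nhds_unique h2 h1)
  · intro t
    have h1 := (limK t).mono_left hUle
    have h2 := (((hp t).norm.pow 2).add ((hq t).norm.pow 2)).add ((hr t).norm.pow 2)
    exact (tendsto_nhds_unique h2 h1)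

end Pool.Agent.Helper2.TB
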