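import Pool.Agent.Helper2.TB.Calc

set_option autoImplicit false

namespace Pool.Agent.Helper2.TB

/-- second derivative of the squared distance `a ^ 2` -/
noncomputable def Eacc (m u σ a b c : ℝ) : ℝ :=
  2 * (3 * m * u / σ) * (2 * σ / 3 - a ^ 2) +
    2 * m * (-2 / a - (a ^ 2 + b ^ 2 - c ^ 2) / (2 * b ^ 3) - (a ^ 2 + c ^ 2 - b ^ 2) / (2 * c ^ 3))

theorem Eacc_symm (m u σ a b c : ℝ) : Eacc m u σ a b c = Eacc m u σ a c b := by
  unfold Eacc; ring

structure Red (m u σ : ℝ) (d1 d2 d3 S e1 e2 e3 Sp : ℝ → ℝ) : Prop where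
  hm : 0 < m
  p1 : ∀ t, 0 < d1 t
  p2 : ∀ t, 0 < d2 t
  p3 : ∀ t, 0 < d3 t
  hu : ∀ t, 1 / d1 t + 1 / d2 t + 1 / d3 t = u
  hs : ∀ t, d1 t ^ 2 + d2 t ^ 2 + d3 t ^ 2 = σ
  hS : ∀ t, 4 * S t ^ 2 = 2 * (d1 t ^ 2 * d2 t ^ 2 + d2 t ^ 2 * d3 t ^ 2 + d3 t ^ 2 * d1 t ^ 2)
    - (d1 t ^ 4 + d2 t ^ 4 + d3 t ^ 4)
  D1 : ∀ t, HasDerivAt (fun s => d1 s ^ 2) (e1 t) t
  D2 : ∀ t, HasDerivAt (fun s => d2 s ^ 2) (e2 t) t
  D3 : ∀ t, HasDerivAt (fun s => d3 s ^ 2) (e3 t) t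
  DS : ∀ t, HasDerivAt S (Sp t) t
  DSp : ∀ t, HasDerivAt Sp (-(2 * m * (1 / d1 t ^ 3 + 1 / d2 t ^ 3 + 1 / d3 t ^ 3)
    + 6 * m * u / σ) * S t) t
  E1 : ∀ t, HasDerivAt e1 (Eacc m u σ (d1 t) (d2 t) (d3 t)) t
  E2 : ∀ t, HasDerivAt e2 (Eacc m u σ (d2 t) (d1 t) (d3 t)) t
  E3 : ∀ t, HasDerivAt e3 (Eacc m u σ (d3 t) (d1 t) (d2 t)) t
  kin : ∀ t, e1 t ^ 2 + e2 t ^ 2 + e3 t ^ 2 + 2 * Sp t ^ 2 = 2 * m * u * σ

namespace Red

variable {m u σ : ℝ} {d1 d2 d3 S e1 e2 e3 Sp : ℝ → ℝ}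

theorem swap12 (h : Red m u σ d1 d2 d3 S e1 e2 e3 Sp) : Red m u σ d2 d1 d3 S e2 e1 e3 Sp where
  hm := h.hm
  p1 := h.p2
  p2 := h.p1
  p3 := h.p3
  hu := fun t => by rw [← h.hu t]; ring
  hs := fun t => by rw [← h.hs t]; ring
  hS := fun t => by rw [h.hS t]; ring
  D1 := h.D2
  D2 := h.D1
  D3 := h.D3
  DS := h.DS
  DSp := fun t => by
    have := h.DSp t
    convert this using 1; ring
  E1 := h.E2
  E2 := h.E1
  E3 := fun t => by rw [Eacc_symm]; exact h.E3 t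
  kin := fun t => by rw [← h.kin t]; ring

theorem swap23 (h : Red m u σ d1 d2 d3 S e1 e2 e3 Sp) : Red m u σ d1 d3 d2 S e1 e3 e2 Sp where
  hm := h.hm
  p1 := h.p1
  p2 := h.p3
  p3 := h.p2
  hu := fun t => by rw [← h.hu t]; ring
  hs := fun t => by rw [← h.hs t]; ring
  hS := fun t => by rw [h.hS t]; ring
  D1 := h.D1
  D2 := h.D3
  D3 := h.D2
  DS := h.DS
  DSp := fun t => by
    have := h.DSp t
    convert this using 1; ring
  E1 := fun t => by rw [Eacc_symm]; exact h.E1 t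
  E2 := h.E3
  E3 := h.E2
  kin := fun t => by rw [← h.kin t]; ring

theorem sigma_pos (h : Red m u σ d1 d2 d3 S e1 e2 e3 Sp) : 0 < σ := by
  rw [← h.hs 0]
  have := h.p1 0; have := h.p2 0; have := h.p3 0
  positivity

theorem u_pos (h : Red m u σ d1 d2 d3 S e1 e2 e3 Sp) : 0 < u := by
  rw [← h.hu 0]
  have := h.p1 0; have := h.p2 0; have := h.p3 0
  positivity

theorem F1 (h : Red m u σ d1 d2 d3 S e1 e2 e3 Sp) (t : ℝ) :
    HasDerivAt d1 (e1 t / (2 * d1 t)) t := by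
  have h1 := (h.D1 t).sqrt (pow_pos (h.p1 t) 2).ne'
  have h2 : (fun s => Real.sqrt (d1 s ^ 2)) = d1 := by
    funext s; exact Real.sqrt_sq (h.p1 s).le
  rw [h2, Real.sqrt_sq (h.p1 t).le] at h1
  exact h1

theorem sum_e (h : Red m u σ d1 d2 d3 S e1 e2 e3 Sp) (t : ℝ) : e1 t + e2 t + e3 t = 0 := by
  have h1 := ((h.D1 t).fun_add (h.D2 t)).fun_add (h.D3 t)
  have h2 : (fun s => d1 s ^ 2 + d2 s ^ 2 + d3 s ^ 2) = fun _ => σ := by
    funext s; exact h.hs s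
  rw [h2] at h1
  exact h1.unique (hasDerivAt_const t σ)

theorem DI1 (h : Red m u σ d1 d2 d3 S e1 e2 e3 Sp) (t : ℝ) :
    HasDerivAt (fun s => 1 / d1 s) (-(1/2) * (e1 t / d1 t ^ 3)) t := by
  have h1 := (h.F1 t).fun_inv (h.p1 t).ne'
  have h2 : (fun s => 1 / d1 s) = fun s => (d1 s)⁻¹ := by funext s; rw [one_div]
  rw [h2]
  refine h1.congr_deriv ?_
  have := (h.p1 t).ne'
  field_simp

theorem sum_w (h : Red m u σ d1 d2 d3 S e1 e2 e3 Sp) (t : ℝ) :
    e1 t / d1 t ^ 3 + e2 t / d2 t ^ 3 + e3 t / d3 t ^ 3 = 0 := by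
  have h1 := ((h.DI1 t).fun_add (h.swap12.DI1 t)).fun_add (h.swap23.swap12.DI1 t)
  have h2 : (fun s => 1 / d1 s + 1 / d2 s + 1 / d3 s) = fun _ => u := by
    funext s; exact h.hu s
  rw [h2] at h1
  have := h1.unique (hasDerivAt_const t u)
  linarith

theorem DW1 (h : Red m u σ d1 d2 d3 S e1 e2 e3 Sp) (t : ℝ) :
    HasDerivAt (fun s => e1 s / d1 s ^ 3)
      (Eacc m u σ (d1 t) (d2 t) (d3 t) / d1 t ^ 3 - 3 / 2 * (e1 t ^ 2 / d1 t ^ 5)) t := by
  have h1 := (h.E1 t).fun_div ((h.F1 t).fun_pow 3) (pow_pos (h.p1 t) 3).ne'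
  refine h1.congr_deriv ?_
  have := (h.p1 t).ne'
  field_simp
  ring

theorem acc_eq (h : Red m u σ d1 d2 d3 S e1 e2 e3 Sp) (t : ℝ) :
    Eacc m u σ (d1 t) (d2 t) (d3 t) / d1 t ^ 3 + Eacc m u σ (d2 t) (d1 t) (d3 t) / d2 t ^ 3
      + Eacc m u σ (d3 t) (d1 t) (d2 t) / d3 t ^ 3
      = 3 / 2 * (e1 t ^ 2 / d1 t ^ 5 + e2 t ^ 2 / d2 t ^ 5 + e3 t ^ 2 / d3 t ^ 5) := by
  have h1 := ((h.DW1 t).fun_add (h.swap12.DW1 t)).fun_add (h.swap23.swap12.DW1 t)
  have h2 : (fun s => e1 s / d1 s ^ 3 + e2 s / d2 s ^ 3 + e3 s / d3 s ^ 3) = fun _ => 0 := by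
    funext s; exact h.sum_w s
  rw [h2] at h1
  have := h1.unique (hasDerivAt_const t (0:ℝ))
  linarith

theorem two_S_Sp (h : Red m u σ d1 d2 d3 S e1 e2 e3 Sp) (t : ℝ) :
    2 * S t * Sp t = -(d1 t ^ 2 * e1 t + d2 t ^ 2 * e2 t + d3 t ^ 2 * e3 t) := by
  have h1 := ((h.DS t).fun_pow 2).const_mul 4
  have a12 := (h.D1 t).fun_mul (h.D2 t)
  have a23 := (h.D2 t).fun_mul (h.D3 t)
  have a31 := (h.D3 t).fun_mul (h.D1 t)
  have b1 := (h.D1 t).fun_pow 2
  have b2 := (h.D2 t).fun_pow 2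
  have b3 := (h.D3 t).fun_pow 2
  have h3 := (((a12.fun_add a23).fun_add a31).const_mul 2).fun_sub ((b1.fun_add b2).fun_add b3)
  have h2 : (fun s => 4 * S s ^ 2) = (fun s => 2 * (d1 s ^ 2 * d2 s ^ 2 + d2 s ^ 2 * d3 s ^ 2
      + d3 s ^ 2 * d1 s ^ 2) - ((d1 s ^ 2) ^ 2 + (d2 s ^ 2) ^ 2 + (d3 s ^ 2) ^ 2)) := by
    funext s; rw [h.hS s]; ring
  rw [h2] at h1
  have h4 := h1.unique h3
  have h5 := h.sum_e t
  simp only [Nat.cast_ofNat, Nat.reduceSub, pow_one] at h4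
  have h6 : e3 t = - e1 t - e2 t := by linarith
  rw [h6] at h4 ⊢
  linear_combination (1/4) * h4

/-- numerical positivity at a collinear configuration -/
theorem phi_pos {m a b : ℝ} (hm : 0 < m) (ha : 0 < a) (hb : 0 < b) :
    0 < Eacc m (1 / a + 1 / b + 1 / (a + b)) (a ^ 2 + b ^ 2 + (a + b) ^ 2) a b (a + b) / a ^ 3
      + Eacc m (1 / a + 1 / b + 1 / (a + b)) (a ^ 2 + b ^ 2 + (a + b) ^ 2) b a (a + b) / b ^ 3
      + Eacc m (1 / a + 1 / b + 1 / (a + b)) (a ^ 2 + b ^ 2 + (a + b) ^ 2) (a + b) a b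
        / (a + b) ^ 3 := by
  have key : Eacc m (1 / a + 1 / b + 1 / (a + b)) (a ^ 2 + b ^ 2 + (a + b) ^ 2) a b (a + b) / a ^ 3
      + Eacc m (1 / a + 1 / b + 1 / (a + b)) (a ^ 2 + b ^ 2 + (a + b) ^ 2) b a (a + b) / b ^ 3
      + Eacc m (1 / a + 1 / b + 1 / (a + b)) (a ^ 2 + b ^ 2 + (a + b) ^ 2) (a + b) a b
        / (a + b) ^ 3 = 2 * m * (8*a^7 + 25*a^6*b + 39*a^5*b^2 + 33*a^4*b^3 + 33*a^3*b^4
          + 39*a^2*b^5 + 25*a*b^6 + 8*b^7) /
          ((a * b * (a + b)) ^ 3 * (a ^ 2 + b ^ 2 + (a + b) ^ 2)) := by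
    have h1 : a + b ≠ 0 := by positivity
    have h2 : a ^ 2 + b ^ 2 + (a + b) ^ 2 ≠ 0 := by positivity
    unfold Eacc
    field_simp
    ring
  rw [key]
  positivity

theorem no_syz (h : Red m u σ d1 d2 d3 S e1 e2 e3 Sp) (t : ℝ) (hS0 : S t = 0)
    (h3 : d3 t = d1 t + d2 t) (hne : d1 t ≠ d2 t) : False := by
  have a0 := h.p1 t
  have b0 := h.p2 t
  have hA := h.two_S_Sp t
  have hB := h.sum_w t
  have hC := h.sum_e t
  have hacc := h.acc_eq t
  have hu := h.hu t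
  have hs := h.hs t
  rw [hS0] at hA
  have he3 : e3 t = - e1 t - e2 t := by linarith
  rw [h3] at hA hB hacc hu hs
  rw [he3] at hA hB
  have hm := h.hm
  generalize d1 t = a at *
  generalize d2 t = b at *
  have A' : b * (2 * a + b) * e1 t + a * (a + 2 * b) * e2 t = 0 := by
    linear_combination (-1) * hA
  have hab : a + b ≠ 0 := by positivity
  have B' : b ^ 4 * (3 * a ^ 2 + 3 * a * b + b ^ 2) * e1 t
      + a ^ 4 * (a ^ 2 + 3 * a * b + 3 * b ^ 2) * e2 t = 0 := by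
    field_simp at hB
    linear_combination hB
  have key : e1 t * ((b - a) * ((2 * b ^ 5 + 9 * a * b ^ 4 + 18 * a ^ 2 * b ^ 3
      + 18 * a ^ 3 * b ^ 2 + 9 * a ^ 4 * b + 2 * a ^ 5) * b)) = 0 := by
    linear_combination (a + 2 * b) * B' - a ^ 3 * (a ^ 2 + 3 * a * b + 3 * b ^ 2) * A'
  have hba : b - a ≠ 0 := by
    intro h0; apply hne; linarith
  have hpos : (2 * b ^ 5 + 9 * a * b ^ 4 + 18 * a ^ 2 * b ^ 3
      + 18 * a ^ 3 * b ^ 2 + 9 * a ^ 4 * b + 2 * a ^ 5) * b ≠ 0 := by positivity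
  have he1 : e1 t = 0 := by
    rcases mul_eq_zero.1 key with h0 | h0
    · exact h0
    · exact absurd h0 (mul_ne_zero hba hpos)
  have he2 : e2 t = 0 := by
    rw [he1] at A'
    have h1 : a * (a + 2 * b) ≠ 0 := by positivity
    have h2 : a * (a + 2 * b) * e2 t = 0 := by linarith
    exact (mul_eq_zero.1 h2).resolve_left h1
  have he3' : e3 t = 0 := by rw [he3, he1, he2]; ring
  rw [he1, he2, he3', ← hu, ← hs] at hacc
  have := phi_pos hm a0 b0
  have hz : (3:ℝ) / 2 * (0 ^ 2 / a ^ 5 + 0 ^ 2 / b ^ 5 + 0 ^ 2 / (a + b) ^ 5) = 0 := by simp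
  rw [hz] at hacc
  linarith

theorem euler_of_S (h : Red m u σ d1 d2 d3 S e1 e2 e3 Sp) (t : ℝ) (hS0 : S t = 0) :
    (d1 t = d2 t ∧ d3 t = 2 * d1 t) ∨ (d2 t = d3 t ∧ d1 t = 2 * d2 t) ∨
      (d1 t = d3 t ∧ d2 t = 2 * d1 t) := by
  have hS := h.hS t
  rw [hS0] at hS
  have a0 := h.p1 t
  have b0 := h.p2 t
  have c0 := h.p3 t
  have hfac : (d1 t + d2 t + d3 t) * ((d1 t + d2 t - d3 t) * ((d1 t + d3 t - d2 t) *
      (d2 t + d3 t - d1 t))) = 0 := by
    linear_combination (-1) * hS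
  have h0 : d1 t + d2 t + d3 t ≠ 0 := by positivity
  have h1 := (mul_eq_zero.1 hfac).resolve_left h0
  rcases mul_eq_zero.1 h1 with h2 | h2
  · left
    have h3 : d3 t = d1 t + d2 t := by linarith
    by_cases he : d1 t = d2 t
    · exact ⟨he, by rw [h3, ← he]; ring⟩
    · exact (h.no_syz t hS0 h3 he).elim
  rcases mul_eq_zero.1 h2 with h4 | h4
  · right; right
    have h3 : d2 t = d1 t + d3 t := by linarith
    by_cases he : d1 t = d3 t
    · exact ⟨he, by rw [h3, ← he]; ring⟩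
    · exact (h.swap23.no_syz t hS0 h3 he).elim
  · right; left
    have h3 : d1 t = d2 t + d3 t := by linarith
    by_cases he : d2 t = d3 t
    · exact ⟨he, by rw [h3, ← he]; ring⟩
    · exact (h.swap12.swap23.no_syz t hS0 h3 he).elim

theorem level (h : Red m u σ d1 d2 d3 S e1 e2 e3 Sp) (t : ℝ) (hS0 : S t = 0) :
    u ^ 2 * σ = 75 / 2 := by
  have a0 := h.p1 t
  have b0 := h.p2 t
  have c0 := h.p3 t
  rw [← h.hu t, ← h.hs t]
  rcases h.euler_of_S t hS0 with ⟨h1, h2⟩ | ⟨h1, h2⟩ | ⟨h1, h2⟩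
  · rw [h2, ← h1]; field_simp; ring
  · rw [h2, ← h1]; field_simp; ring
  · rw [h2, ← h1]; field_simp; ring

theorem iso_contra (h : Red m u σ d1 d2 d3 S e1 e2 e3 Sp) (hlev : u ^ 2 * σ = 75 / 2)
    (t : ℝ) (hS0 : S t ≠ 0) (h23 : d2 t = d3 t) : False := by
  have hm := h.hm
  have x0 := h.p1 t
  have y0 := h.p2 t
  have hS := h.hS t
  have hA := h.two_S_Sp t
  have hB := h.sum_w t
  have hC := h.sum_e t
  have hacc := h.acc_eq t
  have hu := h.hu t
  have hs := h.hs t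
  have hk := h.kin t
  rw [← h23] at hS hA hB hacc hu hs
  have hsq : 0 < S t ^ 2 := by positivity
  generalize d1 t = x at *
  generalize d2 t = y at *
  -- level equation
  have hlev' : 2 * (y + 2 * x) ^ 2 * (x ^ 2 + 2 * y ^ 2) = 75 * x ^ 2 * y ^ 2 := by
    rw [← hu, ← hs] at hlev
    field_simp at hlev
    linear_combination hlev
  have hfac : (x - 2 * y) * (8 * x ^ 3 + 24 * x ^ 2 * y - 9 * x * y ^ 2 - 2 * y ^ 3) = 0 := by
    linear_combination hlev'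
  have hx2y : x < 2 * y := by
    have h1 : 4 * S t ^ 2 = x ^ 2 * (2 * y - x) * (2 * y + x) := by rw [hS]; ring
    by_contra hge
    push Not at hge
    have h2 : x ^ 2 * (2 * y - x) * (2 * y + x) ≤ 0 := by
      have : 0 ≤ x ^ 2 * (x - 2 * y) * (2 * y + x) :=
        mul_nonneg (mul_nonneg (by positivity) (by linarith)) (by positivity)
      linarith
    linarith
  have hcub : 8 * x ^ 3 + 24 * x ^ 2 * y - 9 * x * y ^ 2 - 2 * y ^ 3 = 0 := by
    rcases mul_eq_zero.1 hfac with h0 | h0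
    · exfalso; linarith
    · exact h0
  have hxy : 2 * x < y := by
    by_contra hge
    push Not at hge
    have e1 : 0 ≤ (2 * x - y) := by linarith
    have h1 : 0 < 8 * x ^ 3 + 24 * x ^ 2 * y - 9 * x * y ^ 2 - 2 * y ^ 3 := by
      have h2 : 8 * x ^ 3 + 24 * x ^ 2 * y - 9 * x * y ^ 2 - 2 * y ^ 3
        = (2 * x - y) ^ 3 + 9 * (2 * x - y) ^ 2 * y + (21 / 2) * (2 * x - y) * y ^ 2
          + y ^ 3 / 2 := by ring
      rw [h2]; positivity
    linarith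
  have hxyne : x ≠ y := by intro h0; rw [h0] at hxy; linarith
  have he1 : e1 t = 0 := by
    have h1 : e1 t * (y ^ 3 - x ^ 3) = 0 := by
      have h2 : e3 t = - e1 t - e2 t := by linarith
      rw [h2] at hB
      field_simp at hB
      linear_combination hB
    have h2 : y ^ 3 - x ^ 3 ≠ 0 := by
      have : y ^ 3 - x ^ 3 = (y - x) * (y ^ 2 + y * x + x ^ 2) := by ring
      rw [this]
      apply mul_ne_zero (by intro h0; linarith) (by positivity)
    exact (mul_eq_zero.1 h1).resolve_right h2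
  have he3 : e3 t = - e2 t := by linarith
  have hSp : Sp t = 0 := by
    rw [he1, he3] at hA
    have : S t * Sp t = 0 := by linarith
    exact (mul_eq_zero.1 this).resolve_left hS0
  have hk' : e2 t ^ 2 = m * u * σ := by
    rw [he1, he3, hSp] at hk
    linarith
  rw [he1, he3, neg_sq, hk', ← hu, ← hs] at hacc
  set w := y - 2 * x with hw
  have hw0 : 0 < w := by rw [hw]; linarith
  have hyw : y = 2 * x + w := by rw [hw]; ring
  have key : Eacc m (1 / x + 1 / y + 1 / y) (x ^ 2 + y ^ 2 + y ^ 2) x y y / x ^ 3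
      + Eacc m (1 / x + 1 / y + 1 / y) (x ^ 2 + y ^ 2 + y ^ 2) y x y / y ^ 3
      + Eacc m (1 / x + 1 / y + 1 / y) (x ^ 2 + y ^ 2 + y ^ 2) y x y / y ^ 3
      - 3 / 2 * (0 ^ 2 / x ^ 5 + m * (1 / x + 1 / y + 1 / y) * (x ^ 2 + y ^ 2 + y ^ 2) / y ^ 5
        + m * (1 / x + 1 / y + 1 / y) * (x ^ 2 + y ^ 2 + y ^ 2) / y ^ 5)
      = 2 * m * (123 * x^7 + 2973/2 * x^6 * w + 3344 * x^5*w^2 + 3436 * x^4*w^3
          + 1940 * x^3*w^4 + 626*x^2*w^5 + 109*x*w^6 + 8*w^7) /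
          (x ^ 3 * y ^ 6 * (x ^ 2 + 2 * y ^ 2)) := by
    have h2 : x ^ 2 + y ^ 2 + y ^ 2 ≠ 0 := by positivity
    have h3 : x ^ 2 + 2 * y ^ 2 ≠ 0 := by positivity
    rw [hw]
    unfold Eacc
    field_simp
    ring
  have hpos : 0 < 2 * m * (123 * x^7 + 2973/2 * x^6 * w + 3344 * x^5*w^2 + 3436 * x^4*w^3
          + 1940 * x^3*w^4 + 626*x^2*w^5 + 109*x*w^6 + 8*w^7) /
          (x ^ 3 * y ^ 6 * (x ^ 2 + 2 * y ^ 2)) := by positivity
  linarith

theorem ordered_contra (h : Red m u σ d1 d2 d3 S e1 e2 e3 Sp) {t0 t1 a : ℝ} (h0 : t0 < a)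
    (h1 : a < t1) (hz0 : S t0 = 0) (hz1 : S t1 = 0) (hne : ∀ t, t0 < t → t < t1 → S t ≠ 0)
    (h12 : d1 a < d2 a) (h23 : d2 a < d3 a) : False := by
  have hlev := h.level t0 hz0
  have c1 : Continuous d1 := continuous_iff_continuousAt.2 fun t => (h.F1 t).continuousAt
  have c2 : Continuous d2 := continuous_iff_continuousAt.2 fun t => (h.swap12.F1 t).continuousAt
  have c3 : Continuous d3 := continuous_iff_continuousAt.2
    fun t => (h.swap23.swap12.F1 t).continuousAt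
  have g12 := pos_on_Ioo (f := fun t => d2 t - d1 t) (c2.sub c1) h0 h1
    (fun t ht0 ht1 heq => h.swap23.swap12.iso_contra hlev t (hne t ht0 ht1) (by linarith))
    (by linarith)
  have g23 := pos_on_Ioo (f := fun t => d3 t - d2 t) (c3.sub c2) h0 h1
    (fun t ht0 ht1 heq => h.iso_contra hlev t (hne t ht0 ht1) (by linarith))
    (by linarith)
  -- closure
  have hcl : ∀ (φ : ℝ → ℝ), Continuous φ → (∀ t, t0 < t → t < t1 → 0 < φ t) →
      0 ≤ φ t0 ∧ 0 ≤ φ t1 := by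
    intro φ hφ hpos
    have hsub : Set.Icc t0 t1 ⊆ φ ⁻¹' (Set.Ici 0) := by
      rw [← closure_Ioo (h0.trans h1).ne]
      exact closure_minimal (fun t ht => (hpos t ht.1 ht.2).le) (isClosed_Ici.preimage hφ)
    exact ⟨hsub ⟨le_rfl, (h0.trans h1).le⟩, hsub ⟨(h0.trans h1).le, le_rfl⟩⟩
  have k12 := hcl _ (c2.sub c1) g12
  have k23 := hcl _ (c3.sub c2) g23
  have val : ∀ t, S t = 0 → 0 ≤ d2 t - d1 t → 0 ≤ d3 t - d2 t → d2 t ^ 2 = σ / 6 := by
    intro t hz q12 q23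
    have hs := h.hs t
    have := h.p1 t
    have := h.p2 t
    have := h.p3 t
    rcases h.euler_of_S t hz with ⟨r1, r2⟩ | ⟨r1, r2⟩ | ⟨r1, r2⟩
    · rw [← hs, r2, ← r1]; ring
    · exfalso; linarith
    · exfalso; linarith
  have v0 := val t0 hz0 k12.1 k23.1
  have v1 := val t1 hz1 k12.2 k23.2
  obtain ⟨c, hc, hc'⟩ := exists_hasDerivAt_eq_zero (f := fun s => d2 s ^ 2) (f' := e2)
    (h0.trans h1) (c2.pow 2).continuousOn (by rw [v0, v1]) (fun t _ => h.D2 t)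
  have hA := h.two_S_Sp c
  have hB := h.sum_w c
  have hC := h.sum_e c
  have hk := h.kin c
  have hc0 := hne c hc.1 hc.2
  have q1 := g12 c hc.1 hc.2
  have q2 := g23 c hc.1 hc.2
  have p1 := h.p1 c
  have p3 := h.p3 c
  have he3 : e3 c = - e1 c := by linarith
  have he1 : e1 c = 0 := by
    have h1 : e1 c * (d3 c ^ 3 - d1 c ^ 3) = 0 := by
      rw [he3, hc'] at hB
      field_simp at hB
      linear_combination hB
    have h2 : d3 c ^ 3 - d1 c ^ 3 ≠ 0 := by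
      have : d3 c ^ 3 - d1 c ^ 3 = (d3 c - d1 c) * (d3 c ^ 2 + d3 c * d1 c + d1 c ^ 2) := by ring
      rw [this]
      apply mul_ne_zero (by intro h0; linarith) (by positivity)
    exact (mul_eq_zero.1 h1).resolve_right h2
  have hSp : Sp c = 0 := by
    rw [he3, he1, hc'] at hA
    have : S c * Sp c = 0 := by linarith
    exact (mul_eq_zero.1 this).resolve_left hc0
  rw [he3, he1, hc', hSp] at hk
  have hm := h.hm
  have hu := h.u_pos
  have hsg := h.sigma_pos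
  have : 0 < 2 * m * u * σ := by positivity
  linarith

/-- The reduced system has no solution on the whole line. -/
theorem contra (h : Red m u σ d1 d2 d3 S e1 e2 e3 Sp) : False := by
  have hm := h.hm
  have hu := h.u_pos
  have hsg := h.sigma_pos
  have hcS : Continuous S := continuous_iff_continuousAt.2 fun t => (h.DS t).continuousAt
  by_cases hall : ∀ t, S t = 0
  · -- all times are Euler
    have key : ∀ t, (d1 t ^ 2 - σ / 6) * (d1 t ^ 2 - 4 * σ / 6) = 0 ∧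
        (d2 t ^ 2 - σ / 6) * (d2 t ^ 2 - 4 * σ / 6) = 0 ∧
        (d3 t ^ 2 - σ / 6) * (d3 t ^ 2 - 4 * σ / 6) = 0 := by
      intro t
      have hs := h.hs t
      rcases h.euler_of_S t (hall t) with ⟨r1, r2⟩ | ⟨r1, r2⟩ | ⟨r1, r2⟩
      · rw [← hs, r2, ← r1]; refine ⟨?_, ?_, ?_⟩ <;> ring
      · rw [← hs, r2, ← r1]; refine ⟨?_, ?_, ?_⟩ <;> ring
      · rw [← hs, r2, ← r1]; refine ⟨?_, ?_, ?_⟩ <;> ring
    have dz : ∀ (s e : ℝ → ℝ), (∀ t, HasDerivAt s (e t) t) →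
        (∀ t, (s t - σ / 6) * (s t - 4 * σ / 6) = 0) → ∀ t, e t = 0 := by
      intro s e hd hz t
      have h1 := ((hd t).sub_const (σ / 6)).fun_mul ((hd t).sub_const (4 * σ / 6))
      have h2 : (fun t => (s t - σ / 6) * (s t - 4 * σ / 6)) = fun _ => 0 := by
        funext t; exact hz t
      rw [h2] at h1
      have h3 := h1.unique (hasDerivAt_const t (0:ℝ))
      have h4 : e t * (2 * s t - 5 * σ / 6) = 0 := by linear_combination h3
      rcases mul_eq_zero.1 h4 with h5 | h5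
      · exact h5
      · exfalso
        rcases mul_eq_zero.1 (hz t) with h6 | h6
        · have : s t = σ / 6 := by linarith
          rw [this] at h5; linarith
        · have : s t = 4 * σ / 6 := by linarith
          rw [this] at h5; linarith
    have z1 := dz _ _ h.D1 (fun t => (key t).1) 0
    have z2 := dz _ _ h.D2 (fun t => (key t).2.1) 0
    have z3 := dz _ _ h.D3 (fun t => (key t).2.2) 0
    have hSp : Sp 0 = 0 := by
      have h1 := h.DS 0
      have h2 : S = fun _ => 0 := by funext t; exact hall t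
      rw [h2] at h1
      exact h1.unique (hasDerivAt_const (0:ℝ) (0:ℝ))
    have hk := h.kin 0
    rw [z1, z2, z3, hSp] at hk
    have : 0 < 2 * m * u * σ := by positivity
    linarith
  · push Not at hall
    obtain ⟨a, ha⟩ := hall
    have hc : 0 < 6 * m * u / σ := by positivity
    have hg : ∀ t, 6 * m * u / σ ≤ 2 * m * (1 / d1 t ^ 3 + 1 / d2 t ^ 3 + 1 / d3 t ^ 3)
        + 6 * m * u / σ := by
      intro t
      have := h.p1 t; have := h.p2 t; have := h.p3 t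
      have : 0 < 2 * m * (1 / d1 t ^ 3 + 1 / d2 t ^ 3 + 1 / d3 t ^ 3) := by positivity
      linarith
    obtain ⟨t0, t1, h0, h1, hz0, hz1, hne⟩ := zeros_around hcS ha
      (zero_right hc hg h.DS h.DSp a) (zero_left hc hg h.DS h.DSp a)
    have hlev := h.level t0 hz0
    have n12 : d1 a ≠ d2 a := fun he => h.swap23.swap12.iso_contra hlev a ha he
    have n23 : d2 a ≠ d3 a := fun he => h.iso_contra hlev a ha he
    have n13 : d1 a ≠ d3 a := fun he => h.swap12.iso_contra hlev a ha he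
    rcases lt_or_gt_of_ne n12 with g12 | g12 <;> rcases lt_or_gt_of_ne n23 with g23 | g23 <;>
      rcases lt_or_gt_of_ne n13 with g13 | g13
    · exact h.ordered_contra h0 h1 hz0 hz1 hne g12 g23
    · exact h.ordered_contra h0 h1 hz0 hz1 hne g12 g23
    · exact h.swap23.ordered_contra h0 h1 hz0 hz1 hne g13 g23
    · exact h.swap23.swap12.ordered_contra h0 h1 hz0 hz1 hne g13 g12
    · exact h.swap12.ordered_contra h0 h1 hz0 hz1 hne g12 g13
    · exact h.swap12.swap23.ordered_contra h0 h1 hz0 hz1 hne g23 g13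
    · exact h.swap12.swap23.swap12.ordered_contra h0 h1 hz0 hz1 hne g23 g12
    · exact h.swap12.swap23.swap12.ordered_contra h0 h1 hz0 hz1 hne g23 g12

end Red

end Pool.Agent.Helper2.TB
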