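import Pool.Agent.Helper2.TB.Sol

set_option autoImplicit false

open ComplexConjugate

namespace Pool.Agent.Helper2.TB

theorem dot_add_cr (a b : ℂ) : dot a b ^ 2 + cr a b ^ 2 = ‖a‖ ^ 2 * ‖b‖ ^ 2 := by
  rw [norm_sq_dot, norm_sq_dot]; simp only [dot, cr]; ring

theorem abs_dot_le (a b : ℂ) : |dot a b| ≤ ‖a‖ * ‖b‖ := by
  apply abs_le_of_sq_le_sq _ (by positivity)
  rw [mul_pow, ← dot_add_cr]
  nlinarith [sq_nonneg (cr a b)]

namespace Sol

variable {m : ℝ} {x y z p q r : ℝ → ℂ}

theorem swapxy (h : Sol m x y z p q r) : Sol m y x z q p r where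
  hm := h.hm
  hx := h.hy
  hy := h.hx
  hz := h.hz
  hp := h.hq
  hq := h.hp
  hr := fun t => by rw [add_comm]; exact h.hr t
  com := fun t => by rw [← h.com t]; ring
  mom := fun t => by rw [← h.mom t]; ring
  nxy := fun t => (h.nxy t).symm
  nxz := h.nyz
  nyz := h.nxz
  ang := fun t => by rw [← h.ang t]; ring

theorem swapyz (h : Sol m x y z p q r) : Sol m x z y p r q where
  hm := h.hm
  hx := h.hx
  hy := h.hz
  hz := h.hy
  hp := fun t => by rw [add_comm]; exact h.hp t
  hq := h.hr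
  hr := h.hq
  com := fun t => by rw [← h.com t]; ring
  mom := fun t => by rw [← h.mom t]; ring
  nxy := h.nxz
  nxz := h.nxy
  nyz := fun t => (h.nyz t).symm
  ang := fun t => by rw [← h.ang t]; ring

/-- If a pair stays tight and the third body stays far away: contradiction. -/
theorem tight (h : Sol m x y z p q r) {ρ k R0 : ℝ} (hρ : 0 < ρ) (_hk : 0 < k)
    (hK : ∀ t, ‖p t‖ ^ 2 + ‖q t‖ ^ 2 + ‖r t‖ ^ 2 ≤ k)
    (hxy : ∀ t, ‖y t - x t‖ ≤ ρ) (hR0 : ρ ≤ R0) (hR1 : 4 * (2 * k * ρ ^ 2 / 9) < m * R0)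
    (hR : ∀ t, R0 < ‖z t‖) : False := by
  have hm := h.hm
  have hpos : ∀ t, 0 < ‖z t‖ := fun t => by have := hR t; linarith
  have hd1 : ∀ t, HasDerivAt (fun t => ‖z t‖) (dot (z t) (r t) / ‖z t‖) t := by
    intro t
    have h1 := (hasDerivAt_dot (h.hz t) (h.hz t)).sqrt (by
      rw [← norm_sq_dot]; exact (pow_pos (hpos t) 2).ne')
    have h2 : (fun s => Real.sqrt (dot (z s) (z s))) = fun s => ‖z s‖ := by
      funext s; rw [← norm_sq_dot, Real.sqrt_sq (norm_nonneg _)]
    rw [h2] at h1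
    refine h1.congr_deriv ?_
    rw [← norm_sq_dot, Real.sqrt_sq (norm_nonneg _)]
    have := (hpos t).ne'
    field_simp
    simp only [dot]; ring
  have hd2 : ∀ t, HasDerivAt (fun t => dot (z t) (r t) / ‖z t‖)
      (((dot (r t) (r t) + dot (z t) (m • (G (x t - z t) + G (y t - z t)))) * ‖z t‖
        - dot (z t) (r t) * (dot (z t) (r t) / ‖z t‖)) / ‖z t‖ ^ 2) t := by
    intro t
    exact (hasDerivAt_dot (h.hz t) (h.hr t)).fun_div (hd1 t) (hpos t).ne'
  refine no_pos_concave hd1 hd2 hpos ?_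
  intro t
  have hRt := hR t
  have hzt := hpos t
  set R := ‖z t‖ with hRdef
  -- angular momentum
  have hang := h.ang t
  have hcom := h.com t
  have hmom := h.mom t
  have hcx : x t = - y t - z t := by linear_combination hcom
  have hcp : p t = - q t - r t := by linear_combination hmom
  have hcr : cr (z t) (r t) = - (1/3) * cr (y t - x t) (q t - p t) := by
    rw [hcx, hcp] at hang ⊢
    simp only [cr, Complex.sub_re, Complex.sub_im, Complex.neg_re, Complex.neg_im] at hang ⊢
    linear_combination (2/3) * hang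
  have hcr2 : cr (z t) (r t) ^ 2 ≤ 2 * k * ρ ^ 2 / 9 := by
    have h1 : cr (y t - x t) (q t - p t) ^ 2 ≤ ‖y t - x t‖ ^ 2 * ‖q t - p t‖ ^ 2 := by
      rw [← dot_add_cr]; nlinarith [sq_nonneg (dot (y t - x t) (q t - p t))]
    have h2 : ‖q t - p t‖ ^ 2 ≤ 2 * k := by
      have h3 := norm_sub_le (q t) (p t)
      have h4 := hK t
      nlinarith [norm_nonneg (q t - p t), sq_nonneg (‖q t‖ - ‖p t‖), sq_nonneg ‖r t‖]
    have h3 : ‖y t - x t‖ ^ 2 ≤ ρ ^ 2 := by
      have := hxy t
      exact pow_le_pow_left₀ (norm_nonneg _) this 2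
    have h4 : ‖y t - x t‖ ^ 2 * ‖q t - p t‖ ^ 2 ≤ ρ ^ 2 * (2 * k) :=
      mul_le_mul h3 h2 (by positivity) (by positivity)
    rw [hcr]
    nlinarith
  -- force
  have hforce : ∀ s : ℂ, ‖s‖ ≤ ρ → ∀ w : ℂ, w - z t = -((3/2 : ℝ) • z t + (1/2 : ℝ) • s) →
      dot (z t) (G (w - z t)) ≤ - (1 / (8 * R)) := by
    intro s hs w hw
    have hn : ‖w - z t‖ ≤ 2 * R := by
      rw [hw, norm_neg]
      refine (norm_add_le _ _).trans ?_
      rw [norm_smul, norm_smul, Real.norm_of_nonneg (by norm_num : (0:ℝ) ≤ 3/2),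
        Real.norm_of_nonneg (by norm_num : (0:ℝ) ≤ 1/2)]
      linarith
    have hdot : dot (z t) (w - z t) ≤ - R ^ 2 := by
      have e1 : dot (z t) (w - z t) = - ((3/2) * dot (z t) (z t) + (1/2) * dot (z t) s) := by
        rw [hw]
        simp only [dot, Complex.neg_re, Complex.neg_im, Complex.add_re, Complex.add_im,
          Complex.smul_re, Complex.smul_im, smul_eq_mul]
        ring
      rw [e1, ← norm_sq_dot]
      have e2 := (abs_le.1 (abs_dot_le (z t) s)).1
      have e3 : ‖z t‖ * ‖s‖ ≤ R * ρ := mul_le_mul le_rfl hs (norm_nonneg _) hzt.le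
      have e4 : R * ρ ≤ R * R := by
        apply mul_le_mul le_rfl (by linarith) hρ.le hzt.le
      nlinarith
    have hne : w - z t ≠ 0 := by
      intro h0
      rw [h0] at hdot
      have : dot (z t) 0 = 0 := by simp [dot]
      rw [this] at hdot
      nlinarith
    have hn0 : 0 < ‖w - z t‖ := norm_pos_iff.2 hne
    have e5 : dot (z t) (G (w - z t)) = (‖w - z t‖ ^ 3)⁻¹ * dot (z t) (w - z t) := by
      simp only [dot, G_re, G_im]; ring
    rw [e5]
    have e6 : (8 * R ^ 3)⁻¹ ≤ (‖w - z t‖ ^ 3)⁻¹ := by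
      apply inv_anti₀ (by positivity)
      calc ‖w - z t‖ ^ 3 ≤ (2 * R) ^ 3 := pow_le_pow_left₀ hn0.le hn 3
        _ = 8 * R ^ 3 := by ring
    have e7 : (8 * R ^ 3)⁻¹ * R ^ 2 = 1 / (8 * R) := by field_simp
    have e8 : 0 < (8 * R ^ 3)⁻¹ := by positivity
    have e9 : (8 * R ^ 3)⁻¹ * R ^ 2 ≤ (‖w - z t‖ ^ 3)⁻¹ * (- dot (z t) (w - z t)) :=
      mul_le_mul e6 (by linarith) (by positivity) (by positivity)
    rw [e7] at e9
    linarith
  have f1 : dot (z t) (G (x t - z t)) ≤ - (1 / (8 * R)) := by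
    apply hforce (y t - x t) (hxy t)
    apply Complex.ext
    · simp only [Complex.neg_re, Complex.add_re, Complex.sub_re, Complex.smul_re, smul_eq_mul]
      rw [hcx]
      simp only [Complex.neg_re, Complex.sub_re]; ring
    · simp only [Complex.neg_im, Complex.add_im, Complex.sub_im, Complex.smul_im, smul_eq_mul]
      rw [hcx]
      simp only [Complex.neg_im, Complex.sub_im]; ring
  have f2 : dot (z t) (G (y t - z t)) ≤ - (1 / (8 * R)) := by
    apply hforce (x t - y t) (by rw [norm_sub_rev]; exact hxy t)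
    apply Complex.ext
    · simp only [Complex.neg_re, Complex.add_re, Complex.sub_re, Complex.smul_re, smul_eq_mul]
      rw [hcx]
      simp only [Complex.neg_re, Complex.sub_re]; ring
    · simp only [Complex.neg_im, Complex.add_im, Complex.sub_im, Complex.smul_im, smul_eq_mul]
      rw [hcx]
      simp only [Complex.neg_im, Complex.sub_im]; ring
  have f3 : dot (z t) (m • (G (x t - z t) + G (y t - z t))) ≤ - (m / (4 * R)) := by
    have e1 : dot (z t) (m • (G (x t - z t) + G (y t - z t)))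
        = m * (dot (z t) (G (x t - z t)) + dot (z t) (G (y t - z t))) := by
      simp only [dot, Complex.add_re, Complex.add_im,
          Complex.smul_re, Complex.smul_im, smul_eq_mul]
      ring
    rw [e1]
    have e2 : m * (dot (z t) (G (x t - z t)) + dot (z t) (G (y t - z t)))
        ≤ m * (- (1 / (8 * R)) + - (1 / (8 * R))) := by
      apply mul_le_mul_of_nonneg_left _ hm.le
      linarith
    have e3 : m * (- (1 / (8 * R)) + - (1 / (8 * R))) = - (m / (4 * R)) := by
      field_simp; ring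
    linarith
  -- combine
  have g1 := dot_add_cr (z t) (r t)
  have g2 : dot (r t) (r t) = ‖r t‖ ^ 2 := (norm_sq_dot _).symm
  rw [← hRdef] at g1
  apply div_neg_of_neg_of_pos _ (by positivity)
  have g3 : ((dot (r t) (r t) + dot (z t) (m • (G (x t - z t) + G (y t - z t)))) * R
        - dot (z t) (r t) * (dot (z t) (r t) / R)) * R
      = cr (z t) (r t) ^ 2 + dot (z t) (m • (G (x t - z t) + G (y t - z t))) * R ^ 2 := by
    rw [g2]
    field_simp
    linear_combination (-1) * g1
  have g4 : dot (z t) (m • (G (x t - z t) + G (y t - z t))) * R ^ 2 ≤ - (m * R / 4) := by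
    have : - (m / (4 * R)) * R ^ 2 = - (m * R / 4) := by field_simp
    rw [← this]
    exact mul_le_mul_of_nonneg_right f3 (by positivity)
  have g5 : m * R0 < m * R := mul_lt_mul_of_pos_left hRt hm
  have g6 : ((dot (r t) (r t) + dot (z t) (m • (G (x t - z t) + G (y t - z t)))) * R
        - dot (z t) (r t) * (dot (z t) (r t) / R)) * R < 0 := by
    rw [g3]; linarith
  by_contra hge
  push Not at hge
  have := mul_nonneg hge hzt.le
  linarith

theorem far (h : Sol m x y z p q r) {ρ k R0 D : ℝ} (hρ : 0 < ρ) (hk : 0 < k)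
    (hK : ∀ t, ‖p t‖ ^ 2 + ‖q t‖ ^ 2 + ‖r t‖ ^ 2 ≤ k)
    (hR0 : ρ ≤ R0) (hR1 : 4 * (2 * k * ρ ^ 2 / 9) < m * R0)
    (hD1 : 3 / 2 * (R0 + ρ) ≤ D)
    (hfar : ∀ t, D < ‖z t - y t‖ ∨ D < ‖z t - x t‖ ∨ D < ‖y t - x t‖)
    (hall : ∀ t, ‖y t - x t‖ ≤ ρ) : False := by
  apply h.tight hρ hk hK hall hR0 hR1
  intro t
  have h1 := hall t
  have hDρ : ρ < D := by linarith
  have hcx : x t = - y t - z t := by linear_combination h.com t
  have hb : ∀ s : ℂ, ‖s‖ ≤ ρ → ∀ w : ℂ, w = (3/2 : ℝ) • z t + (1/2 : ℝ) • s →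
      ‖w‖ ≤ 3 / 2 * ‖z t‖ + ρ / 2 := by
    intro s hs w hw
    rw [hw]
    refine (norm_add_le _ _).trans ?_
    rw [norm_smul, norm_smul, Real.norm_of_nonneg (by norm_num : (0:ℝ) ≤ 3/2),
        Real.norm_of_nonneg (by norm_num : (0:ℝ) ≤ 1/2)]
    linarith
  have b1 : ‖z t - x t‖ ≤ 3 / 2 * ‖z t‖ + ρ / 2 := by
    apply hb (y t - x t) (hall t)
    apply Complex.ext
    · simp only [Complex.add_re, Complex.sub_re, Complex.smul_re, smul_eq_mul]
      rw [hcx]
      simp only [Complex.neg_re, Complex.sub_re]; ring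
    · simp only [Complex.add_im, Complex.sub_im, Complex.smul_im, smul_eq_mul]
      rw [hcx]
      simp only [Complex.neg_im, Complex.sub_im]; ring
  have b2 : ‖z t - y t‖ ≤ 3 / 2 * ‖z t‖ + ρ / 2 := by
    apply hb (x t - y t) (by rw [norm_sub_rev]; exact hall t)
    apply Complex.ext
    · simp only [Complex.add_re, Complex.sub_re, Complex.smul_re, smul_eq_mul]
      rw [hcx]
      simp only [Complex.neg_re, Complex.sub_re]; ring
    · simp only [Complex.add_im, Complex.sub_im, Complex.smul_im, smul_eq_mul]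
      rw [hcx]
      simp only [Complex.neg_im, Complex.sub_im]; ring
  rcases hfar t with h2 | h2 | h2
  · linarith
  · linarith
  · linarith

/-- Every solution on the line with the given bounds visits a fixed compact set. -/
theorem visit (h : Sol m x y z p q r) {uL k ρ R0 D : ℝ} (huL : 0 < uL) (hk : 0 < k)
    (hρ : ρ = 3 / uL)
    (hR0 : ρ ≤ R0) (hR1 : 4 * (2 * k * ρ ^ 2 / 9) < m * R0)
    (hD1 : 3 / 2 * (R0 + ρ) ≤ D)
    (hV : ∀ t, uL < 1 / ‖z t - y t‖ + 1 / ‖z t - x t‖ + 1 / ‖y t - x t‖)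
    (hK : ∀ t, ‖p t‖ ^ 2 + ‖q t‖ ^ 2 + ‖r t‖ ^ 2 ≤ k) :
    ∃ t, ‖z t - y t‖ ≤ D ∧ ‖z t - x t‖ ≤ D ∧ ‖y t - x t‖ ≤ D := by
  by_contra hcon
  push Not at hcon
  have hρ0 : 0 < ρ := by rw [hρ]; positivity
  have hfar : ∀ t, D < ‖z t - y t‖ ∨ D < ‖z t - x t‖ ∨ D < ‖y t - x t‖ := by
    intro t
    by_cases h1 : ‖z t - y t‖ ≤ D
    · by_cases h2 : ‖z t - x t‖ ≤ D
      · exact Or.inr (Or.inr (hcon t h1 h2))
      · exact Or.inr (Or.inl (not_le.1 h2))
    · exact Or.inl (not_le.1 h1)
  have hD2 : 2 * ρ ≤ D := by linarith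
  have cx : Continuous x := continuous_iff_continuousAt.2 fun t => (h.hx t).continuousAt
  have cy : Continuous y := continuous_iff_continuousAt.2 fun t => (h.hy t).continuousAt
  have cz : Continuous z := continuous_iff_continuousAt.2 fun t => (h.hz t).continuousAt
  set T1 : Set ℝ := {t | ‖z t - y t‖ ≤ ρ} with hT1
  set T2 : Set ℝ := {t | ‖z t - x t‖ ≤ ρ} with hT2
  set T3 : Set ℝ := {t | ‖y t - x t‖ ≤ ρ} with hT3
  have c1 : IsClosed T1 := isClosed_le (cz.sub cy).norm continuous_const
  have c2 : IsClosed T2 := isClosed_le (cz.sub cx).norm continuous_const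
  have c3 : IsClosed T3 := isClosed_le (cy.sub cx).norm continuous_const
  have hcover : ∀ t, t ∈ T1 ∨ t ∈ T2 ∨ t ∈ T3 := by
    intro t
    by_contra hno
    push Not at hno
    obtain ⟨n1, n2, n3⟩ := hno
    simp only [hT1, hT2, hT3, Set.mem_ofPred_eq, not_le] at n1 n2 n3
    have hv := hV t
    have i1 : 1 / ‖z t - y t‖ < 1 / ρ := one_div_lt_one_div_of_lt hρ0 n1
    have i2 : 1 / ‖z t - x t‖ < 1 / ρ := one_div_lt_one_div_of_lt hρ0 n2
    have i3 : 1 / ‖y t - x t‖ < 1 / ρ := one_div_lt_one_div_of_lt hρ0 n3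
    have i4 : 1 / ρ = uL / 3 := by rw [hρ]; field_simp
    linarith
  have tri1 : ∀ t, ‖z t - y t‖ ≤ ‖z t - x t‖ + ‖y t - x t‖ := by
    intro t
    have := norm_sub_le (z t - x t) (y t - x t)
    have e : z t - x t - (y t - x t) = z t - y t := by ring
    rwa [e] at this
  have tri2 : ∀ t, ‖z t - x t‖ ≤ ‖z t - y t‖ + ‖y t - x t‖ := by
    intro t
    have := norm_add_le (z t - y t) (y t - x t)
    have e : z t - y t + (y t - x t) = z t - x t := by ring
    rwa [e] at this
  have tri3 : ∀ t, ‖y t - x t‖ ≤ ‖z t - x t‖ + ‖z t - y t‖ := by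
    intro t
    have := norm_sub_le (z t - x t) (z t - y t)
    have e : z t - x t - (z t - y t) = y t - x t := by ring
    rwa [e] at this
  have d12 : ∀ t, t ∈ T1 → t ∈ T2 → False := by
    intro t h1 h2
    simp only [hT1, hT2, Set.mem_ofPred_eq] at h1 h2
    have := tri3 t
    rcases hfar t with h | h | h <;> linarith
  have d13 : ∀ t, t ∈ T1 → t ∈ T3 → False := by
    intro t h1 h2
    simp only [hT1, hT3, Set.mem_ofPred_eq] at h1 h2
    have := tri2 t
    rcases hfar t with h | h | h <;> linarith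
  have d23 : ∀ t, t ∈ T2 → t ∈ T3 → False := by
    intro t h1 h2
    simp only [hT2, hT3, Set.mem_ofPred_eq] at h1 h2
    have := tri1 t
    rcases hfar t with h | h | h <;> linarith
  have o1 : IsOpen T1 := by
    have : T1 = (T2 ∪ T3)ᶜ := by
      ext t
      simp only [Set.mem_compl_iff, Set.mem_union]
      constructor
      · rintro h1 (h2 | h2)
        · exact d12 t h1 h2
        · exact d13 t h1 h2
      · intro h1
        rcases hcover t with h2 | h2 | h2
        · exact h2
        · exact absurd (Or.inl h2) h1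
        · exact absurd (Or.inr h2) h1
    rw [this]; exact (c2.union c3).isOpen_compl
  have o2 : IsOpen T2 := by
    have : T2 = (T1 ∪ T3)ᶜ := by
      ext t
      simp only [Set.mem_compl_iff, Set.mem_union]
      constructor
      · rintro h1 (h2 | h2)
        · exact d12 t h2 h1
        · exact d23 t h1 h2
      · intro h1
        rcases hcover t with h2 | h2 | h2
        · exact absurd (Or.inl h2) h1
        · exact h2
        · exact absurd (Or.inr h2) h1
    rw [this]; exact (c1.union c3).isOpen_compl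
  have o3 : IsOpen T3 := by
    have : T3 = (T1 ∪ T2)ᶜ := by
      ext t
      simp only [Set.mem_compl_iff, Set.mem_union]
      constructor
      · rintro h1 (h2 | h2)
        · exact d13 t h2 h1
        · exact d23 t h2 h1
      · intro h1
        rcases hcover t with h2 | h2 | h2
        · exact absurd (Or.inl h2) h1
        · exact absurd (Or.inr h2) h1
        · exact h2
    rw [this]; exact (c1.union c2).isOpen_compl
  rcases hcover 0 with h0 | h0 | h0
  · have hu : T1 = Set.univ := by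
      rcases isClopen_iff.1 ⟨c1, o1⟩ with h1 | h1
      · rw [h1] at h0; exact h0.elim
      · exact h1
    have hall : ∀ t, ‖z t - y t‖ ≤ ρ := fun t => by
      have : t ∈ T1 := by rw [hu]; trivial
      exact this
    -- tight pair (y, z), third body x : permutation (y, z, x)
    refine h.swapxy.swapyz.far (x := y) (y := z) (z := x) (p := q) (q := r) (r := p)
      hρ0 hk (fun t => by have := hK t; linarith) hR0 hR1 hD1 ?_ hall
    intro t
    rw [norm_sub_rev (x t) (z t), norm_sub_rev (x t) (y t)]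
    rcases hfar t with h | h | h
    · exact Or.inr (Or.inr h)
    · exact Or.inl h
    · exact Or.inr (Or.inl h)
  · have hu : T2 = Set.univ := by
      rcases isClopen_iff.1 ⟨c2, o2⟩ with h1 | h1
      · rw [h1] at h0; exact h0.elim
      · exact h1
    have hall : ∀ t, ‖z t - x t‖ ≤ ρ := fun t => by
      have : t ∈ T2 := by rw [hu]; trivial
      exact this
    refine h.swapyz.far (x := x) (y := z) (z := y) (p := p) (q := r) (r := q)
      hρ0 hk (fun t => by have := hK t; linarith) hR0 hR1 hD1 ?_ hall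
    intro t
    rw [norm_sub_rev (y t) (z t)]
    rcases hfar t with h | h | h
    · exact Or.inl h
    · exact Or.inr (Or.inr h)
    · exact Or.inr (Or.inl h)
  · have hu : T3 = Set.univ := by
      rcases isClopen_iff.1 ⟨c3, o3⟩ with h1 | h1
      · rw [h1] at h0; exact h0.elim
      · exact h1
    have hall : ∀ t, ‖y t - x t‖ ≤ ρ := fun t => by
      have : t ∈ T3 := by rw [hu]; trivial
      exact this
    exact h.far hρ0 hk hK hR0 hR1 hD1 hfar hall

/-- Time translation. -/
theorem shift (h : Sol m x y z p q r) (a : ℝ) :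
    Sol m (fun t => x (t + a)) (fun t => y (t + a)) (fun t => z (t + a))
      (fun t => p (t + a)) (fun t => q (t + a)) (fun t => r (t + a)) where
  hm := h.hm
  hx := fun t => (h.hx (t + a)).comp_add_const t a
  hy := fun t => (h.hy (t + a)).comp_add_const t a
  hz := fun t => (h.hz (t + a)).comp_add_const t a
  hp := fun t => (h.hp (t + a)).comp_add_const t a
  hq := fun t => (h.hq (t + a)).comp_add_const t a
  hr := fun t => (h.hr (t + a)).comp_add_const t a
  com := fun t => h.com (t + a)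
  mom := fun t => h.mom (t + a)
  nxy := fun t => h.nxy (t + a)
  nxz := fun t => h.nxz (t + a)
  nyz := fun t => h.nyz (t + a)
  ang := fun t => h.ang (t + a)

end Sol

end Pool.Agent.Helper2.TB
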