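import Pool.Agent.Helper2.TB.Red

set_option autoImplicit false

open ComplexConjugate

namespace Pool.Agent.Helper2.TB

/-- inverse square law direction field -/
noncomputable def G (w : ℂ) : ℂ := ((‖w‖ ^ 3)⁻¹ : ℝ) • w

def dot (a b : ℂ) : ℝ := a.re * b.re + a.im * b.im
def cr (a b : ℂ) : ℝ := a.re * b.im - a.im * b.re

theorem G_re (w : ℂ) : (G w).re = (‖w‖ ^ 3)⁻¹ * w.re := by
  simp only [G, Complex.smul_re, smul_eq_mul]
theorem G_im (w : ℂ) : (G w).im = (‖w‖ ^ 3)⁻¹ * w.im := by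
  simp only [G, Complex.smul_im, smul_eq_mul]

theorem norm_sq_dot (a : ℂ) : ‖a‖ ^ 2 = dot a a := by
  rw [← Complex.normSq_eq_norm_sq, Complex.normSq_apply, dot]

theorem hasDerivAt_re {f : ℝ → ℂ} {f' : ℂ} {t : ℝ} (h : HasDerivAt f f' t) :
    HasDerivAt (fun s => (f s).re) f'.re t :=
  (Complex.reCLM.hasFDerivAt.comp_hasDerivAt t h)

theorem hasDerivAt_im {f : ℝ → ℂ} {f' : ℂ} {t : ℝ} (h : HasDerivAt f f' t) :
    HasDerivAt (fun s => (f s).im) f'.im t :=
  (Complex.imCLM.hasFDerivAt.comp_hasDerivAt t h)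

theorem hasDerivAt_dot {f g : ℝ → ℂ} {f' g' : ℂ} {t : ℝ} (hf : HasDerivAt f f' t)
    (hg : HasDerivAt g g' t) :
    HasDerivAt (fun s => dot (f s) (g s)) (dot f' (g t) + dot (f t) g') t := by
  have h := ((hasDerivAt_re hf).fun_mul (hasDerivAt_re hg)).fun_add
    ((hasDerivAt_im hf).fun_mul (hasDerivAt_im hg))
  refine h.congr_deriv ?_
  simp only [dot]; ring

theorem hasDerivAt_cr {f g : ℝ → ℂ} {f' g' : ℂ} {t : ℝ} (hf : HasDerivAt f f' t)
    (hg : HasDerivAt g g' t) :
    HasDerivAt (fun s => cr (f s) (g s)) (cr f' (g t) + cr (f t) g') t := by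
  have h := ((hasDerivAt_re hf).fun_mul (hasDerivAt_im hg)).fun_sub
    ((hasDerivAt_im hf).fun_mul (hasDerivAt_re hg))
  refine h.congr_deriv ?_
  simp only [cr]; ring

/-- An equal mass planar three body motion with zero centre of mass and angular momentum. -/
structure Sol (m : ℝ) (x y z p q r : ℝ → ℂ) : Prop where
  hm : 0 < m
  hx : ∀ t, HasDerivAt x (p t) t
  hy : ∀ t, HasDerivAt y (q t) t
  hz : ∀ t, HasDerivAt z (r t) t
  hp : ∀ t, HasDerivAt p (m • (G (y t - x t) + G (z t - x t))) t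
  hq : ∀ t, HasDerivAt q (m • (G (x t - y t) + G (z t - y t))) t
  hr : ∀ t, HasDerivAt r (m • (G (x t - z t) + G (y t - z t))) t
  com : ∀ t, x t + y t + z t = 0
  mom : ∀ t, p t + q t + r t = 0
  nxy : ∀ t, x t ≠ y t
  nxz : ∀ t, x t ≠ z t
  nyz : ∀ t, y t ≠ z t
  ang : ∀ t, cr (x t) (p t) + cr (y t) (q t) + cr (z t) (r t) = 0

theorem exists_w {x y z p q r : ℂ} (hP : p + q + r = 0)
    (nyz : y ≠ z) (h1 : dot x p + dot y q + dot z r = 0)
    (h2 : cr x p + cr y q + cr z r = 0) :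
    ∃ w : ℂ, p = w * conj (y - z) ∧ q = w * conj (z - x) ∧ r = w * conj (x - y) := by
  have hne : conj (y - z) ≠ 0 := by
    intro h0
    have : y - z = 0 := by
      have := congrArg conj h0
      simpa using this
    exact nyz (sub_eq_zero.1 this)
  have hH : conj x * p + conj y * q + conj z * r = 0 := by
    apply Complex.ext
    · simp [dot] at h1 ⊢; linarith
    · simp [cr] at h2 ⊢; linarith
  have hr : r = - p - q := by linear_combination hP
  have hq : q * conj (y - z) = p * conj (z - x) := by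
    rw [hr] at hH
    simp only [map_sub]
    linear_combination hH
  refine ⟨p / conj (y - z), ?_, ?_, ?_⟩
  · field_simp
  · rw [div_mul_eq_mul_div, eq_div_iff hne]; exact hq
  · rw [div_mul_eq_mul_div, eq_div_iff hne, hr]
    simp only [map_sub] at hq ⊢
    linear_combination (-1) * hq

theorem cube_inv {d : ℝ} (hd : 0 < d) : (d ^ 3)⁻¹ * d ^ 2 = 1 / d := by
  field_simp

/-- scalar product of accelerations with positions -/
theorem dot_G {a : ℂ} (ha : a ≠ 0) : dot a (G a) = 1 / ‖a‖ := by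
  have h0 : 0 < ‖a‖ := norm_pos_iff.2 ha
  rw [← cube_inv h0, norm_sq_dot]
  simp only [dot, G_re, G_im]
  ring

namespace Sol

variable {m : ℝ} {x y z p q r : ℝ → ℂ}

theorem inertia (h : Sol m x y z p q r) {u : ℝ}
    (hU : ∀ t, 1 / ‖z t - y t‖ + 1 / ‖z t - x t‖ + 1 / ‖y t - x t‖ = u)
    (hK : ∀ t, ‖p t‖ ^ 2 + ‖q t‖ ^ 2 + ‖r t‖ ^ 2 = m * u) (t : ℝ) :
    dot (x t) (p t) + dot (y t) (q t) + dot (z t) (r t) = 0 := by
  have key := affine_nonneg
    (f := fun t => dot (x t) (x t) + dot (y t) (y t) + dot (z t) (z t))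
    (f1 := fun t => 2 * (dot (x t) (p t) + dot (y t) (q t) + dot (z t) (r t))) ?_ ?_ ?_ t
  · linarith
  · intro t
    have := ((hasDerivAt_dot (h.hx t) (h.hx t)).fun_add (hasDerivAt_dot (h.hy t) (h.hy t))).fun_add
      (hasDerivAt_dot (h.hz t) (h.hz t))
    refine this.congr_deriv ?_
    simp only [dot]; ring
  · intro t
    have := (((hasDerivAt_dot (h.hx t) (h.hp t)).fun_add
      (hasDerivAt_dot (h.hy t) (h.hq t))).fun_add
      (hasDerivAt_dot (h.hz t) (h.hr t))).const_mul 2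
    refine this.congr_deriv ?_
    have k := hK t
    simp only [norm_sq_dot] at k
    have g3 := dot_G (a := y t - x t) (sub_ne_zero.2 (h.nxy t).symm)
    have g2 := dot_G (a := z t - x t) (sub_ne_zero.2 (h.nxz t).symm)
    have g1 := dot_G (a := z t - y t) (sub_ne_zero.2 (h.nyz t).symm)
    have hu := hU t
    have n3 : G (x t - y t) = - G (y t - x t) := by
      simp only [G, norm_sub_rev (x t) (y t)]
      rw [← smul_neg]; congr 1; ring
    have n2 : G (x t - z t) = - G (z t - x t) := by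
      simp only [G, norm_sub_rev (x t) (z t)]
      rw [← smul_neg]; congr 1; ring
    have n1 : G (y t - z t) = - G (z t - y t) := by
      simp only [G, norm_sub_rev (y t) (z t)]
      rw [← smul_neg]; congr 1; ring
    rw [n1, n2, n3]
    rw [← g1, ← g2, ← g3] at hu
    simp only [dot, Complex.sub_re, Complex.sub_im, Complex.add_re, Complex.add_im,
      Complex.neg_re, Complex.neg_im, Complex.smul_re, Complex.smul_im, smul_eq_mul] at hu k ⊢
    linear_combination 2 * k - 2 * m * hu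
  · intro t
    have a1 := mul_self_nonneg (x t).re
    have a2 := mul_self_nonneg (x t).im
    have a3 := mul_self_nonneg (y t).re
    have a4 := mul_self_nonneg (y t).im
    have a5 := mul_self_nonneg (z t).re
    have a6 := mul_self_nonneg (z t).im
    simp only [dot]; linarith

theorem G_neg_sub (a b : ℂ) : G (a - b) = - G (b - a) := by
  simp only [G, norm_sub_rev a b]
  rw [← smul_neg]; congr 1; ring

theorem toRed (h : Sol m x y z p q r) {u : ℝ}
    (hU : ∀ t, 1 / ‖z t - y t‖ + 1 / ‖z t - x t‖ + 1 / ‖y t - x t‖ = u)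
    (hK : ∀ t, ‖p t‖ ^ 2 + ‖q t‖ ^ 2 + ‖r t‖ ^ 2 = m * u) :
    ∃ (σ : ℝ) (S e1 e2 e3 Sp : ℝ → ℝ), Red m u σ (fun t => ‖z t - y t‖) (fun t => ‖z t - x t‖)
      (fun t => ‖y t - x t‖) S e1 e2 e3 Sp := by
  have hI := h.inertia hU hK
  have hcz : ∀ t, z t = - x t - y t := fun t => by linear_combination h.com t
  -- constancy of sigma
  have hconst : ∀ t, dot (x t) (x t) + dot (y t) (y t) + dot (z t) (z t) =
      dot (x 0) (x 0) + dot (y 0) (y 0) + dot (z 0) (z 0) := by
    have hd : ∀ t, HasDerivAt (fun t => dot (x t) (x t) + dot (y t) (y t) + dot (z t) (z t)) 0 t := by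
      intro t
      have := ((hasDerivAt_dot (h.hx t) (h.hx t)).fun_add
        (hasDerivAt_dot (h.hy t) (h.hy t))).fun_add (hasDerivAt_dot (h.hz t) (h.hz t))
      refine this.congr_deriv ?_
      have := hI t
      simp only [dot] at this ⊢
      linear_combination 2 * this
    intro t
    exact is_const_of_deriv_eq_zero (fun t => (hd t).differentiableAt)
      (fun t => (hd t).deriv) t 0
  set σ : ℝ := 3 * (dot (x 0) (x 0) + dot (y 0) (y 0) + dot (z 0) (z 0)) with hσ
  have hs : ∀ t, ‖z t - y t‖ ^ 2 + ‖z t - x t‖ ^ 2 + ‖y t - x t‖ ^ 2 = σ := by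
    intro t
    rw [hσ, ← hconst t]
    simp only [norm_sq_dot]
    rw [hcz t]
    simp only [dot, Complex.sub_re, Complex.sub_im, Complex.neg_re, Complex.neg_im]
    ring
  have d1 : ∀ t, 0 < ‖z t - y t‖ := fun t => norm_pos_iff.2 (sub_ne_zero.2 (h.nyz t).symm)
  have d2 : ∀ t, 0 < ‖z t - x t‖ := fun t => norm_pos_iff.2 (sub_ne_zero.2 (h.nxz t).symm)
  have d3 : ∀ t, 0 < ‖y t - x t‖ := fun t => norm_pos_iff.2 (sub_ne_zero.2 (h.nxy t).symm)
  have hσ0 : 0 < σ := by
    rw [← hs 0]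
    have := d1 0; have := d2 0; have := d3 0
    positivity
  have hw : ∀ t, ∃ w : ℂ, p t = w * conj (y t - z t) ∧ q t = w * conj (z t - x t) ∧
      r t = w * conj (x t - y t) ∧ (dot w w) * σ = m * u := by
    intro t
    obtain ⟨w, hw1, hw2, hw3⟩ := exists_w (h.mom t) (h.nyz t) (hI t) (h.ang t)
    refine ⟨w, hw1, hw2, hw3, ?_⟩
    rw [← hK t, ← hs t]
    simp only [norm_sq_dot]
    rw [hw1, hw2, hw3]
    simp only [dot, Complex.sub_re, Complex.sub_im, Complex.mul_re, Complex.mul_im,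
      Complex.conj_re, Complex.conj_im]
    ring
  have e1x : ∀ t, (‖z t - y t‖ ^ 3)⁻¹ * ‖z t - y t‖ ^ 2 = 1 / ‖z t - y t‖ :=
    fun t => cube_inv (d1 t)
  have e2x : ∀ t, (‖z t - x t‖ ^ 3)⁻¹ * ‖z t - x t‖ ^ 2 = 1 / ‖z t - x t‖ :=
    fun t => cube_inv (d2 t)
  have e3x : ∀ t, (‖y t - x t‖ ^ 3)⁻¹ * ‖y t - x t‖ ^ 2 = 1 / ‖y t - x t‖ :=
    fun t => cube_inv (d3 t)
  refine ⟨σ, fun t => cr (y t - x t) (z t - x t), fun t => 2 * dot (z t - y t) (r t - q t),
    fun t => 2 * dot (z t - x t) (r t - p t), fun t => 2 * dot (y t - x t) (q t - p t),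
    fun t => cr (q t - p t) (z t - x t) + cr (y t - x t) (r t - p t), ?_⟩
  refine
    { hm := h.hm, p1 := d1, p2 := d2, p3 := d3, hu := hU, hs := hs, hS := ?_, D1 := ?_, D2 := ?_,
      D3 := ?_, DS := ?_, DSp := ?_, E1 := ?_, E2 := ?_, E3 := ?_, kin := ?_ }
  · intro t
    have f : ∀ a : ℂ, ‖a‖ ^ 4 = (dot a a) ^ 2 := by
      intro a; rw [← norm_sq_dot]; ring
    simp only [f, norm_sq_dot]
    simp only [dot, cr, Complex.sub_re, Complex.sub_im]
    ring
  · intro t
    simp only [norm_sq_dot]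
    have := hasDerivAt_dot ((h.hz t).fun_sub (h.hy t)) ((h.hz t).fun_sub (h.hy t))
    refine this.congr_deriv ?_
    simp only [dot]; ring
  · intro t
    simp only [norm_sq_dot]
    have := hasDerivAt_dot ((h.hz t).fun_sub (h.hx t)) ((h.hz t).fun_sub (h.hx t))
    refine this.congr_deriv ?_
    simp only [dot]; ring
  · intro t
    simp only [norm_sq_dot]
    have := hasDerivAt_dot ((h.hy t).fun_sub (h.hx t)) ((h.hy t).fun_sub (h.hx t))
    refine this.congr_deriv ?_
    simp only [dot]; ring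
  · intro t
    exact hasDerivAt_cr ((h.hy t).fun_sub (h.hx t)) ((h.hz t).fun_sub (h.hx t))
  · intro t
    obtain ⟨w, hw1, hw2, hw3, hw4⟩ := hw t
    have := (hasDerivAt_cr ((h.hq t).fun_sub (h.hp t)) ((h.hz t).fun_sub (h.hx t))).fun_add
      (hasDerivAt_cr ((h.hy t).fun_sub (h.hx t)) ((h.hr t).fun_sub (h.hp t)))
    refine this.congr_deriv ?_
    rw [G_neg_sub (x t) (y t), G_neg_sub (x t) (z t), G_neg_sub (y t) (z t)]
    have hk : 6 * m * u / σ = 6 * dot w w := by
      rw [div_eq_iff hσ0.ne']; linear_combination (-6) * hw4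
    rw [hk, hw1, hw2, hw3, hcz t]
    simp only [dot, cr, Complex.sub_re, Complex.sub_im, Complex.add_re, Complex.add_im,
      Complex.neg_re, Complex.neg_im, Complex.smul_re, Complex.smul_im, smul_eq_mul, G_re, G_im,
      Complex.mul_re, Complex.mul_im, Complex.conj_re, Complex.conj_im, one_div]
    ring
  · intro t
    obtain ⟨w, hw1, hw2, hw3, hw4⟩ := hw t
    have := (hasDerivAt_dot ((h.hz t).fun_sub (h.hy t)) ((h.hr t).fun_sub (h.hq t))).const_mul 2
    refine this.congr_deriv ?_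
    have hk : 3 * m * u / σ = 3 * dot w w := by
      rw [div_eq_iff hσ0.ne']; linear_combination (-3) * hw4
    unfold Eacc
    rw [hk, ← hs t]
    have ed : ∀ d : ℝ, -2 / d = -2 * (1 / d) := fun d => by ring
    rw [ed, ← e1x t]
    have eq2 : ∀ A d : ℝ, A / (2 * d ^ 3) = A / 2 * (d ^ 3)⁻¹ := fun A d => by
      rw [div_eq_mul_inv, mul_inv]; ring
    rw [eq2, eq2]
    simp only [norm_sq_dot]
    rw [G_neg_sub (x t) (y t), G_neg_sub (x t) (z t), G_neg_sub (y t) (z t)]
    rw [hw2, hw3, hcz t]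
    simp only [dot, Complex.sub_re, Complex.sub_im, Complex.add_re, Complex.add_im,
      Complex.neg_re, Complex.neg_im, Complex.smul_re, Complex.smul_im, smul_eq_mul, G_re, G_im,
      Complex.mul_re, Complex.mul_im, Complex.conj_re, Complex.conj_im]
    ring
  · intro t
    obtain ⟨w, hw1, hw2, hw3, hw4⟩ := hw t
    have := (hasDerivAt_dot ((h.hz t).fun_sub (h.hx t)) ((h.hr t).fun_sub (h.hp t))).const_mul 2
    refine this.congr_deriv ?_
    have hk : 3 * m * u / σ = 3 * dot w w := by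
      rw [div_eq_iff hσ0.ne']; linear_combination (-3) * hw4
    unfold Eacc
    rw [hk, ← hs t]
    have ed : ∀ d : ℝ, -2 / d = -2 * (1 / d) := fun d => by ring
    rw [ed, ← e2x t]
    have eq2 : ∀ A d : ℝ, A / (2 * d ^ 3) = A / 2 * (d ^ 3)⁻¹ := fun A d => by
      rw [div_eq_mul_inv, mul_inv]; ring
    rw [eq2, eq2]
    simp only [norm_sq_dot]
    rw [G_neg_sub (x t) (z t), G_neg_sub (y t) (z t)]
    rw [hw1, hw3, hcz t]
    simp only [dot, Complex.sub_re, Complex.sub_im, Complex.add_re, Complex.add_im,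
      Complex.neg_re, Complex.neg_im, Complex.smul_re, Complex.smul_im, smul_eq_mul, G_re, G_im,
      Complex.mul_re, Complex.mul_im, Complex.conj_re, Complex.conj_im]
    ring
  · intro t
    obtain ⟨w, hw1, hw2, hw3, hw4⟩ := hw t
    have := (hasDerivAt_dot ((h.hy t).fun_sub (h.hx t)) ((h.hq t).fun_sub (h.hp t))).const_mul 2
    refine this.congr_deriv ?_
    have hk : 3 * m * u / σ = 3 * dot w w := by
      rw [div_eq_iff hσ0.ne']; linear_combination (-3) * hw4
    unfold Eacc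
    rw [hk, ← hs t]
    have ed : ∀ d : ℝ, -2 / d = -2 * (1 / d) := fun d => by ring
    rw [ed, ← e3x t]
    have eq2 : ∀ A d : ℝ, A / (2 * d ^ 3) = A / 2 * (d ^ 3)⁻¹ := fun A d => by
      rw [div_eq_mul_inv, mul_inv]; ring
    rw [eq2, eq2]
    simp only [norm_sq_dot]
    rw [G_neg_sub (x t) (y t)]
    rw [hw1, hw2, hcz t]
    simp only [dot, Complex.sub_re, Complex.sub_im, Complex.add_re, Complex.add_im,
      Complex.neg_re, Complex.neg_im, Complex.smul_re, Complex.smul_im, smul_eq_mul, G_re, G_im,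
      Complex.mul_re, Complex.mul_im, Complex.conj_re, Complex.conj_im]
    ring
  · intro t
    obtain ⟨w, hw1, hw2, hw3, hw4⟩ := hw t
    have hk : 2 * m * u * σ = 2 * dot w w * σ ^ 2 := by linear_combination (-2 * σ) * hw4
    rw [hk, ← hs t]
    simp only [norm_sq_dot]
    rw [hw1, hw2, hw3, hcz t]
    simp only [dot, cr, Complex.sub_re, Complex.sub_im,
      Complex.neg_re, Complex.neg_im,
      Complex.mul_re, Complex.mul_im, Complex.conj_re, Complex.conj_im]
    ring

/-- No motion on the whole line has zero angular momentum and `U ≡ 2 E`. -/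
theorem contra (h : Sol m x y z p q r) {u : ℝ}
    (hU : ∀ t, 1 / ‖z t - y t‖ + 1 / ‖z t - x t‖ + 1 / ‖y t - x t‖ = u)
    (hK : ∀ t, ‖p t‖ ^ 2 + ‖q t‖ ^ 2 + ‖r t‖ ^ 2 = m * u) : False := by
  obtain ⟨σ, S, e1, e2, e3, Sp, hR⟩ := h.toRed hU hK
  exact hR.contra

end Sol

end Pool.Agent.Helper2.TB
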